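import Mathlib
import Pool.Agent.H76.SV.Defs

/-!
# Transfer: zeros high up and zeros low down, definitions
-/

set_option autoImplicit false

open Complex

namespace Pool.Agent.H76.TR

/-- `u` is within `r` of the ordinate of a zero of `ζ` with real part at least `1 - q` -/
def Near (q r u : ℝ) : Prop := ∃ v : ℂ, riemannZeta v = 0 ∧ 1 - q ≤ v.re ∧ |v.im - u| ≤ r

/-- the number of pairs of elements of `X` whose difference is near the ordinate of a zero -/
noncomputable def nearPairs (q r : ℝ) (X : Finset ℝ) : ℕ :=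
  {p : ℝ × ℝ | p.1 ∈ X ∧ p.2 ∈ X ∧ Near q r (p.1 - p.2)}.ncard

/-- the zeros with real part at least `β` and height at most `H` -/
def low (β H : ℝ) : Set ℂ := {v : ℂ | riemannZeta v = 0 ∧ β ≤ v.re ∧ |v.im| ≤ H}

/-- the sum over the zeros with `Re v ≥ β`, `|Im v| ≤ H`, with multiplicity, of
`N^(-(1-ε)(1 - Re v))` -/
noncomputable def lowSum (ε N β H : ℝ) : ℝ :=
  ∑ᶠ v ∈ low β H, (analyticOrderNatAt riemannZeta v : ℝ) * N ^ (-((1 - ε) * (1 - v.re)))

end Pool.Agent.H76.TR
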