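import Mathlib
import Pool.Agent.H76.TR.Defs

/-!
# NumT: decay of the kernel

`x = (2+ε)/L` resp. `x = w/(L y) ≤ (2+ε)/L`; `log (1+x) ≥ x - x^2/2` (`x ≥ 0`), and
`(k+1) log(1+x) ≥ (1-5θ) L y log N (x - x^2/2)`.  With `θ = ε/56`, `L = 4/θ^2`:
`x/2 ≤ 1.125 θ^2/4 ≤ θ/100`, `(1-5θ)(1-θ/100)(2+ε) ≥ 2 + 3ε/4`, `(1-5θ)(1-θ/100) ≥ 1-ε`.
About 60 lines.
-/

set_option autoImplicit false

open Complex

namespace Pool.Agent.H76.TR

private theorem dec {x M Q : ℝ} (hx : 0 ≤ x) (hM : 0 ≤ M) {k : ℕ} (hk : M ≤ k)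
    (hQ : Q ≤ M * (x - x ^ 2 / 2)) : (1 / (1 + x)) ^ (k + 1) ≤ Real.exp (-Q) := by
  have h0 : 0 < 1 + x := by linarith
  have h1 : x - x ^ 2 / 2 ≤ Real.log (1 + x) := by
    refine le_trans ?_ (Real.le_log_one_add_of_nonneg hx)
    rw [le_div_iff₀ (by linarith)]
    have : 0 ≤ x ^ 3 := by positivity
    nlinarith
  have h2 : 0 ≤ Real.log (1 + x) := Real.log_nonneg (by linarith)
  have h3 : 1 / (1 + x) = Real.exp (-Real.log (1 + x)) := by
    rw [Real.exp_neg, Real.exp_log h0, one_div]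
  rw [h3, ← Real.exp_nat_mul]
  apply Real.exp_le_exp.2
  have h4 : M * (x - x ^ 2 / 2) ≤ M * Real.log (1 + x) := by gcongr
  have h5 : M * Real.log (1 + x) ≤ (k : ℝ) * Real.log (1 + x) := by gcongr
  push_cast
  linarith

theorem decay1 {ε θ L : ℝ} (hε : 0 < ε) (hε1 : ε ≤ 1 / 4) (hθ : θ = ε / 56) (hL : L = 4 / θ ^ 2)
    {y N : ℝ} (hy : 0 < y) (hN : 1 ≤ N) {k : ℕ}
    (hk : (1 - 5 * θ) * (L * y * Real.log N) ≤ k) :
    (L / (L + 2 + ε)) ^ (k + 1) ≤ N ^ (-((2 + 3 * ε / 4) * y)) := by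
  have hθ0 : 0 < θ := by rw [hθ]; positivity
  have hθ1 : θ ≤ 1 / 224 := by rw [hθ]; linarith
  have hL0 : 0 < L := by rw [hL]; positivity
  have hN0 : 0 < N := by linarith
  have hlN : 0 ≤ Real.log N := Real.log_nonneg hN
  have h5 : 0 ≤ 1 - 5 * θ := by linarith
  set x : ℝ := (2 + ε) / L with hx
  have hx0 : 0 ≤ x := by positivity
  have hLx : L * x = 2 + ε := by rw [hx]; field_simp
  have hxθ : x / 2 ≤ θ / 100 := by
    have e1 : x = (2 + ε) * θ ^ 2 / 4 := by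
      rw [hx, hL]
      field_simp
    rw [e1]
    nlinarith
  have e1 : L / (L + 2 + ε) = 1 / (1 + x) := by
    rw [hx]
    field_simp
    ring
  rw [e1, Real.rpow_def_of_pos hN0]
  have e2 : Real.log N * (-((2 + 3 * ε / 4) * y)) = -((2 + 3 * ε / 4) * y * Real.log N) := by ring
  rw [e2]
  refine dec hx0 (by positivity) hk ?_
  have e3 : (1 - 5 * θ) * (L * y * Real.log N) * (x - x ^ 2 / 2) =
      ((1 - 5 * θ) * (L * x) * (1 - x / 2)) * (y * Real.log N) := by ring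
  rw [e3, hLx, mul_assoc (2 + 3 * ε / 4)]
  refine mul_le_mul_of_nonneg_right ?_ (by positivity)
  have e4 : (1 - 5 * θ) * (2 + ε) * (1 - θ / 100) ≤ (1 - 5 * θ) * (2 + ε) * (1 - x / 2) := by
    gcongr
  refine le_trans ?_ e4
  have e5 : ε = 56 * θ := by rw [hθ]; ring
  rw [e5]
  nlinarith

theorem decay2 {ε θ L : ℝ} (hε : 0 < ε) (hε1 : ε ≤ 1 / 4) (hθ : θ = ε / 56) (hL : L = 4 / θ ^ 2)
    {y N w : ℝ} (hy : 0 < y) (hN : 1 ≤ N) {k : ℕ}
    (hk : (1 - 5 * θ) * (L * y * Real.log N) ≤ k) (hw : 0 ≤ w) (hw1 : w ≤ (2 + ε) * y) :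
    (1 / (1 + w / (L * y))) ^ (k + 1) ≤ N ^ (-((1 - ε) * w)) := by
  have hθ0 : 0 < θ := by rw [hθ]; positivity
  have hθ1 : θ ≤ 1 / 224 := by rw [hθ]; linarith
  have hL0 : 0 < L := by rw [hL]; positivity
  have hN0 : 0 < N := by linarith
  have hlN : 0 ≤ Real.log N := Real.log_nonneg hN
  have h5 : 0 ≤ 1 - 5 * θ := by linarith
  set x : ℝ := w / (L * y) with hx
  have hx0 : 0 ≤ x := by positivity
  have hLx : L * y * x = w := by rw [hx]; field_simp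
  have hxθ : x / 2 ≤ θ / 100 := by
    have e1 : x ≤ (2 + ε) * θ ^ 2 / 4 := by
      rw [hx, div_le_iff₀ (by positivity), hL]
      have : (2 + ε) * θ ^ 2 / 4 * (4 / θ ^ 2 * y) = (2 + ε) * y := by field_simp
      rw [this]
      exact hw1
    nlinarith
  rw [Real.rpow_def_of_pos hN0]
  have e2 : Real.log N * (-((1 - ε) * w)) = -((1 - ε) * w * Real.log N) := by ring
  rw [e2]
  refine dec hx0 (by positivity) hk ?_
  have e3 : (1 - 5 * θ) * (L * y * Real.log N) * (x - x ^ 2 / 2) =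
      ((1 - 5 * θ) * (1 - x / 2)) * ((L * y * x) * Real.log N) := by ring
  rw [e3, hLx, mul_assoc (1 - ε)]
  refine mul_le_mul_of_nonneg_right ?_ (by positivity)
  have e4 : (1 - 5 * θ) * (1 - θ / 100) ≤ (1 - 5 * θ) * (1 - x / 2) := by
    gcongr
  refine le_trans ?_ e4
  have e5 : ε = 56 * θ := by rw [hθ]; ring
  rw [e5]
  nlinarith

end Pool.Agent.H76.TR
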