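import Mathlib
import Pool.Agent.H76.TR.Defs

/-!
# DualT: duality with the same kernel

Put `D(t) = ∑' d_n n^(-it)`.  Choose `c_x`, `‖c_x‖ = 1` (or `≤ 1`), with `c_x D(x) = ‖D(x)‖`
(`c_x = conj(D x)/‖D x‖`, or 1 if `D x = 0`).  Then
`card X * V ≤ ∑_x c_x D(x) = ∑' d_n z_n`, `z_n = ∑_x c_x n^(-ix)` (`‖z_n‖ ≤ card X`, everything is
summable), and by Cauchy-Schwarz (for instance
`Real.inner_le_Lp_mul_Lq_tsum_of_nonneg`, or finite partial sums and a limit, or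
`‖∑' d_n z_n‖ ≤ ∑' d_n ‖z_n‖ ≤ (1/2)(λ ∑' d_n + λ⁻¹ ∑' d_n ‖z_n‖^2)` for all `λ > 0`)
`‖∑' d_n z_n‖^2 ≤ (∑' d_n) (∑' d_n ‖z_n‖^2)`.  Finally for `n ≥ 1`
`‖z_n‖^2 = z_n * conj z_n = ∑_(x,x') c_x conj(c_x') n^(-i(x-x'))`, and `d_0 = 0`, so
`∑' d_n ‖z_n‖^2 = ∑_(x,x') c_x conj(c_x') D(x-x') ≤ ∑ ‖D(x-x')‖`.  About 120 lines.
-/

set_option autoImplicit false

open Complex

namespace Pool.Agent.H76.TR

private theorem dt_unit (n : ℕ) (hn : n ≠ 0) (x : ℝ) : ‖(n : ℂ) ^ (-((x : ℂ) * I))‖ = 1 := by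
  rw [Complex.norm_natCast_cpow_of_pos (Nat.pos_of_ne_zero hn)]
  simp

private theorem dt_conj (n : ℕ) (x : ℝ) :
    (starRingEnd ℂ) ((n : ℂ) ^ (-((x : ℂ) * I))) = (n : ℂ) ^ ((x : ℂ) * I) := by
  have h1 : ((n : ℂ)).arg ≠ Real.pi := by
    rw [Complex.natCast_arg]
    exact Real.pi_ne_zero.symm
  have h2 := Complex.cpow_conj (n : ℂ) (-((x : ℂ) * I)) h1
  have h3 : (starRingEnd ℂ) (-((x : ℂ) * I)) = (x : ℂ) * I := by
    simp
  have h4 : (starRingEnd ℂ) (n : ℂ) = (n : ℂ) := by simp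
  rw [h3, h4] at h2
  exact h2.symm

private theorem dt_term (d : ℕ → ℝ) (hd : ∀ n, 0 ≤ d n) (hd0 : d 0 = 0) (x : ℝ) (n : ℕ) :
    ‖(d n : ℂ) * (n : ℂ) ^ (-((x : ℂ) * I))‖ = d n := by
  rcases Nat.eq_zero_or_pos n with hn | hn
  · subst hn
    simp [hd0]
  · rw [norm_mul, dt_unit n hn.ne', mul_one, Complex.norm_real, Real.norm_of_nonneg (hd n)]

private theorem dt_summ (d : ℕ → ℝ) (hd : ∀ n, 0 ≤ d n) (hd0 : d 0 = 0) (hs : Summable d)
    (x : ℝ) : Summable (fun n : ℕ => (d n : ℂ) * (n : ℂ) ^ (-((x : ℂ) * I))) := by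
  apply Summable.of_norm
  have h : (fun n : ℕ => ‖(d n : ℂ) * (n : ℂ) ^ (-((x : ℂ) * I))‖) = d := by
    funext n
    exact dt_term d hd hd0 x n
  rw [h]
  exact hs

private theorem dt_cs (d w : ℕ → ℝ) (hd : ∀ n, 0 ≤ d n) (hs : Summable d)
    (h1 : Summable fun n => d n * w n) (h2 : Summable fun n => d n * w n ^ 2) :
    (∑' n, d n * w n) ^ 2 ≤ (∑' n, d n) * ∑' n, d n * w n ^ 2 := by
  have ht : Filter.Tendsto (fun N : ℕ => (∑ n ∈ Finset.range N, d n * w n) ^ 2) Filter.atTop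
      (nhds ((∑' n, d n * w n) ^ 2)) := (h1.hasSum.tendsto_sum_nat).pow 2
  refine le_of_tendsto' ht ?_
  intro N
  have h3 := Finset.sum_mul_sq_le_sq_mul_sq (Finset.range N) (fun n => √(d n))
    (fun n => √(d n) * w n)
  have h4 : ∀ n, √(d n) * (√(d n) * w n) = d n * w n := by
    intro n
    rw [← mul_assoc, Real.mul_self_sqrt (hd n)]
  have h5 : ∀ n, √(d n) ^ 2 = d n := fun n => Real.sq_sqrt (hd n)
  have h6 : ∀ n, (√(d n) * w n) ^ 2 = d n * w n ^ 2 := by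
    intro n
    rw [mul_pow, h5]
  simp only [h4, h5, h6] at h3
  refine h3.trans ?_
  have h7 : ∑ n ∈ Finset.range N, d n ≤ ∑' n, d n :=
    hs.sum_le_tsum _ (fun n _ => hd n)
  have h8 : ∑ n ∈ Finset.range N, d n * w n ^ 2 ≤ ∑' n, d n * w n ^ 2 :=
    h2.sum_le_tsum _ (fun n _ => mul_nonneg (hd n) (sq_nonneg _))
  refine mul_le_mul h7 h8 ?_ (tsum_nonneg hd)
  exact Finset.sum_nonneg (fun n _ => mul_nonneg (hd n) (sq_nonneg _))

private theorem dt_phase (w : ℂ) : ∃ c : ℂ, ‖c‖ ≤ 1 ∧ c * w = (‖w‖ : ℂ) := by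
  by_cases hw : w = 0
  · exact ⟨0, by simp, by simp [hw]⟩
  · refine ⟨(starRingEnd ℂ) w / (‖w‖ : ℂ), ?_, ?_⟩
    · rw [norm_div, Complex.norm_real, norm_norm]
      rw [RCLike.norm_conj, div_self (norm_ne_zero_iff.mpr hw)]
    · have h : (‖w‖ : ℂ) ≠ 0 := by
        exact_mod_cast (norm_ne_zero_iff.mpr hw)
      rw [div_mul_eq_mul_div, div_eq_iff h, mul_comm, Complex.mul_conj, Complex.normSq_eq_norm_sq]
      push_cast
      ring

theorem dualT (d : ℕ → ℝ) (hd : ∀ n, 0 ≤ d n) (hd0 : d 0 = 0) (hs : Summable d) (X : Finset ℝ)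
    (V : ℝ) (hV : 0 ≤ V) (hX : ∀ x ∈ X, V ≤ ‖∑' n : ℕ, (d n : ℂ) * (n : ℂ) ^ (-(x * I))‖) :
    (X.card * V) ^ 2 ≤ (∑' n, d n) *
      ∑ x ∈ X, ∑ y ∈ X, ‖∑' n : ℕ, (d n : ℂ) * (n : ℂ) ^ (-(((x - y : ℝ) : ℂ) * I))‖ := by
  classical
  set D : ℝ → ℂ := fun t => ∑' n : ℕ, (d n : ℂ) * (n : ℂ) ^ (-((t : ℂ) * I)) with hD
  choose c hc1 hc2 using fun x : ℝ => dt_phase (D x)
  set z : ℕ → ℂ := fun n => ∑ x ∈ X, c x * (n : ℂ) ^ (-((x : ℂ) * I)) with hz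
  have hzn : ∀ n, n ≠ 0 → ‖z n‖ ≤ X.card := by
    intro n hn
    refine (norm_sum_le _ _).trans ?_
    have : ∀ x ∈ X, ‖c x * (n : ℂ) ^ (-((x : ℂ) * I))‖ ≤ 1 := by
      intro x _
      rw [norm_mul, dt_unit n hn, mul_one]
      exact hc1 x
    refine (Finset.sum_le_sum this).trans ?_
    simp
  have hb1 : ∀ n, d n * ‖z n‖ ≤ d n * X.card := by
    intro n
    rcases Nat.eq_zero_or_pos n with hn | hn
    · subst hn
      simp [hd0]
    · exact mul_le_mul_of_nonneg_left (hzn n hn.ne') (hd n)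
  have hb2 : ∀ n, d n * ‖z n‖ ^ 2 ≤ d n * (X.card : ℝ) ^ 2 := by
    intro n
    rcases Nat.eq_zero_or_pos n with hn | hn
    · subst hn
      simp [hd0]
    · exact mul_le_mul_of_nonneg_left (pow_le_pow_left₀ (norm_nonneg _) (hzn n hn.ne') 2) (hd n)
  have s1 : Summable fun n => d n * ‖z n‖ :=
    Summable.of_nonneg_of_le (fun n => mul_nonneg (hd n) (norm_nonneg _)) hb1
      (hs.mul_right (X.card : ℝ))
  have s2 : Summable fun n => d n * ‖z n‖ ^ 2 :=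
    Summable.of_nonneg_of_le (fun n => mul_nonneg (hd n) (sq_nonneg _)) hb2
      (hs.mul_right ((X.card : ℝ) ^ 2))
  have e1 : ∑ x ∈ X, c x * D x = ∑' n : ℕ, (d n : ℂ) * z n := by
    have h1 : ∀ x ∈ X, c x * D x = ∑' n : ℕ, c x * ((d n : ℂ) * (n : ℂ) ^ (-((x : ℂ) * I))) := by
      intro x _
      rw [hD, tsum_mul_left]
    rw [Finset.sum_congr rfl h1]
    rw [← Summable.tsum_finsetSum (fun x _ => (dt_summ d hd hd0 hs x).mul_left (c x))]
    refine tsum_congr ?_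
    intro n
    rw [hz, Finset.mul_sum]
    refine Finset.sum_congr rfl ?_
    intro x _
    ring
  have e2 : ∑ x ∈ X, c x * D x = ((∑ x ∈ X, ‖D x‖ : ℝ) : ℂ) := by
    push_cast
    exact Finset.sum_congr rfl (fun x _ => hc2 x)
  have e3 : (X.card : ℝ) * V ≤ ∑' n, d n * ‖z n‖ := by
    have h1 : (X.card : ℝ) * V ≤ ∑ x ∈ X, ‖D x‖ := by
      rw [← nsmul_eq_mul]
      exact Finset.card_nsmul_le_sum X _ V (fun x hx => hX x hx)
    refine h1.trans ?_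
    have h2 : ∑ x ∈ X, ‖D x‖ = ‖∑' n : ℕ, (d n : ℂ) * z n‖ := by
      rw [← e1, e2, Complex.norm_real, Real.norm_of_nonneg]
      exact Finset.sum_nonneg (fun x _ => norm_nonneg _)
    rw [h2]
    have h3 : ∀ n : ℕ, ‖(d n : ℂ) * z n‖ = d n * ‖z n‖ := by
      intro n
      rw [norm_mul, Complex.norm_real, Real.norm_of_nonneg (hd n)]
    have h4 : Summable fun n : ℕ => ‖(d n : ℂ) * z n‖ := by
      simp only [h3]
      exact s1
    refine (norm_tsum_le_tsum_norm h4).trans (le_of_eq ?_)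
    exact tsum_congr h3
  have e4 : ((∑' n, d n * ‖z n‖ ^ 2 : ℝ) : ℂ) =
      ∑ x ∈ X, ∑ y ∈ X, c x * (starRingEnd ℂ) (c y) * D (x - y) := by
    rw [Complex.ofReal_tsum]
    have h1 : ∀ n : ℕ, ((d n * ‖z n‖ ^ 2 : ℝ) : ℂ) = ∑ x ∈ X, ∑ y ∈ X,
        c x * (starRingEnd ℂ) (c y) * ((d n : ℂ) * (n : ℂ) ^ (-(((x - y : ℝ) : ℂ) * I))) := by
      intro n
      rcases Nat.eq_zero_or_pos n with hn | hn
      · subst hn
        simp [hd0]
      · have h2 : ((‖z n‖ ^ 2 : ℝ) : ℂ) = z n * (starRingEnd ℂ) (z n) := by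
          rw [Complex.mul_conj, Complex.normSq_eq_norm_sq]
        rw [Complex.ofReal_mul, h2]
        have h3 : (starRingEnd ℂ) (z n) =
            ∑ y ∈ X, (starRingEnd ℂ) (c y) * (n : ℂ) ^ ((y : ℂ) * I) := by
          rw [hz, map_sum]
          refine Finset.sum_congr rfl ?_
          intro y _
          rw [map_mul, dt_conj]
        rw [h3, hz, Finset.sum_mul_sum, Finset.mul_sum]
        refine Finset.sum_congr rfl ?_
        intro x _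
        rw [Finset.mul_sum]
        refine Finset.sum_congr rfl ?_
        intro y _
        have hn' : (n : ℂ) ≠ 0 := by exact_mod_cast hn.ne'
        have h4 : (n : ℂ) ^ (-(((x - y : ℝ) : ℂ) * I)) =
            (n : ℂ) ^ (-((x : ℂ) * I)) * (n : ℂ) ^ ((y : ℂ) * I) := by
          rw [← Complex.cpow_add _ _ hn']
          congr 1
          push_cast
          ring
        rw [h4]
        ring
    rw [tsum_congr h1]
    rw [Summable.tsum_finsetSum]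
    · refine Finset.sum_congr rfl ?_
      intro x _
      rw [Summable.tsum_finsetSum]
      · refine Finset.sum_congr rfl ?_
        intro y _
        rw [tsum_mul_left]
      · intro y _
        exact (dt_summ d hd hd0 hs (x - y)).mul_left _
    · intro x _
      exact summable_sum (fun y _ => (dt_summ d hd hd0 hs (x - y)).mul_left _)
  have e5 : ∑' n, d n * ‖z n‖ ^ 2 ≤ ∑ x ∈ X, ∑ y ∈ X, ‖D (x - y)‖ := by
    have h1 : ∑' n, d n * ‖z n‖ ^ 2 = ‖((∑' n, d n * ‖z n‖ ^ 2 : ℝ) : ℂ)‖ := by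
      rw [Complex.norm_real, Real.norm_of_nonneg]
      exact tsum_nonneg (fun n => mul_nonneg (hd n) (sq_nonneg _))
    rw [h1, e4]
    refine (norm_sum_le _ _).trans (Finset.sum_le_sum ?_)
    intro x _
    refine (norm_sum_le _ _).trans (Finset.sum_le_sum ?_)
    intro y _
    rw [norm_mul, norm_mul, RCLike.norm_conj]
    have h2 : ‖c x‖ * ‖c y‖ ≤ 1 := mul_le_one₀ (hc1 x) (norm_nonneg _) (hc1 y)
    calc ‖c x‖ * ‖c y‖ * ‖D (x - y)‖ ≤ 1 * ‖D (x - y)‖ :=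
          mul_le_mul_of_nonneg_right h2 (norm_nonneg _)
      _ = ‖D (x - y)‖ := one_mul _
  have e6 : 0 ≤ (X.card : ℝ) * V := mul_nonneg (Nat.cast_nonneg _) hV
  calc ((X.card : ℝ) * V) ^ 2 ≤ (∑' n, d n * ‖z n‖) ^ 2 := pow_le_pow_left₀ e6 e3 2
    _ ≤ (∑' n, d n) * ∑' n, d n * ‖z n‖ ^ 2 := dt_cs d (fun n => ‖z n‖) hd hs s1 s2
    _ ≤ (∑' n, d n) * ∑ x ∈ X, ∑ y ∈ X, ‖D (x - y)‖ :=
        mul_le_mul_of_nonneg_left e5 (tsum_nonneg hd)

end Pool.Agent.H76.TR
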