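import Mathlib
import Pool.Agent.H76.TR.Defs
import Pool.Agent.H76.CR.ZFacts

/-!
# LowZ: the zeros of bounded height

`low β H`, `β > 0`: the zeros of `zetaPole` in a closed ball around `2` are finite (`zeros_finite` in
`H6/Win/ZetaLoc.lean`; as in `near_finite`, `H76/CR/ZFacts.lean`); `1` is not in `low β H` because
`riemannZeta 1 ≠ 0` (`riemannZeta_one_ne_zero`, or `re_lt_one`), and a point with
`β ≤ re < 1`, `|im| ≤ H` is in `closedBall 2 (2 + H)` if `β ≥ 0`.
`lowSum_eq`: `finsum_mem_eq_finite_toFinset_sum`.  About 50 lines.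
-/

set_option autoImplicit false

open Complex

namespace Pool.Agent.H76.TR

open Pool.Agent.H76.CR

theorem low_finite {β : ℝ} (hβ : 0 ≤ β) (H : ℝ) : (low β H).Finite := by
  refine (Pool.Agent.H6.zeros_finite (2 + |H|)).subset ?_
  rintro u ⟨hu, hre, him⟩
  have h1 : u.re < 1 := re_lt_one hu
  have hu1 : u ≠ 1 := by
    rintro rfl
    simp at h1
  refine ⟨?_, (zetaPole_eq_zero_iff hu1).2 hu⟩
  rw [Metric.mem_closedBall, dist_eq_norm]
  have h2 : ‖u - 2‖ ≤ |(u - 2).re| + |(u - 2).im| := Complex.norm_le_abs_re_add_abs_im _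
  have h3 : (u - 2).re = u.re - 2 := by simp
  have h4 : (u - 2).im = u.im := by simp
  rw [h3, h4] at h2
  have h5 : |u.re - 2| ≤ 2 := by
    rw [abs_le]
    constructor <;> linarith
  have h6 : |u.im| ≤ |H| := him.trans (le_abs_self H)
  linarith

theorem lowSum_eq {β : ℝ} (hβ : 0 ≤ β) (ε N H : ℝ) :
    lowSum ε N β H = ∑ v ∈ (low_finite hβ H).toFinset,
      (analyticOrderNatAt riemannZeta v : ℝ) * N ^ (-((1 - ε) * (1 - v.re))) :=
  finsum_mem_eq_finite_toFinset_sum _ (low_finite hβ H)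

theorem lowSum_nonneg {ε N β : ℝ} (hN : 0 ≤ N) (H : ℝ) : 0 ≤ lowSum ε N β H := by
  unfold lowSum
  refine finsum_nonneg fun v => ?_
  refine finsum_nonneg fun _ => ?_
  positivity

theorem lowSum_mono {β : ℝ} (hβ : 0 ≤ β) {ε N H H' : ℝ} (hN : 0 ≤ N) (hH : H ≤ H') :
    lowSum ε N β H ≤ lowSum ε N β H' := by
  rw [lowSum_eq hβ, lowSum_eq hβ]
  refine Finset.sum_le_sum_of_subset_of_nonneg ?_ fun v _ _ => by positivity
  intro v hv
  rw [Set.Finite.mem_toFinset] at hv ⊢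
  exact ⟨hv.1, hv.2.1, hv.2.2.trans hH⟩

end Pool.Agent.H76.TR
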