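import Mathlib
import Pool.Agent.H76.SV.DkLocalV
import Pool.Agent.H76.TR.LowZ

/-!
# KerT: the kernel at a difference `u`

`Dk_localV` with `A = L`, `η = ε/(L+3)`, `a = L y`, `r = (L+2+ε) y`:
`(1+η) r ≤ a + 1/2` because `(2+ε)(1/4-ε) ≤ 1/2 - 7ε/4` and `η (L+2+ε) y ≤ ε/4`;
`r ≤ L + 1 ≤ |u|`.  A zero `v` of `zetaPole` with `‖pt a u - v‖ < r` is not `1` (`|u| ≥ r`), so it is
a zero of `ζ`, `re v < 1`, `re (pt a u - v) = 1 + a - re v > a > 0`, hence `1 + a - re v < r`, i.e.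
`re v > 1 - (2+ε) y`, and `(im v - u)^2 < r^2 - a^2 = (2+ε)(2L+2+ε) y^2 ≤ (3(L+1) y)^2`.
`kerP`: the finset `S` of `Dk_localV` is empty.  `kerW`: `S` is contained in the filter of
`low (1-(2+ε)y) (|u| + 3(L+1)y)`; `zord v = analyticOrderNatAt riemannZeta v` (`zord_eq`),
`‖pt a u - v‖ ≥ 1 + a - re v`.  About 130 lines.
-/

set_option autoImplicit false

open Complex

namespace Pool.Agent.H76.TR

open Pool.Agent.H76.CR Pool.Agent.H6 Pool.Agent.H6.Win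

/-- the common part: the zeros seen by the kernel at `u` -/
private theorem ker_core {L ε : ℝ} (hL : 1 ≤ L) (hε : 0 < ε) (hε1 : ε ≤ 1 / 4) : ∃ C : ℝ, 1 ≤ C ∧
    ∀ (y u Λ : ℝ), 0 < y → y ≤ 1 / 4 - ε → L + 1 ≤ |u| → 1 ≤ Λ → Real.log (|u| + 2) ≤ Λ →
      Real.log (1 / (L * y)) ≤ Λ → ∃ S : Finset ℂ,
      (∀ v ∈ S, riemannZeta v = 0 ∧ 1 - (2 + ε) * y ≤ v.re ∧ |v.im - u| ≤ 3 * (L + 1) * y ∧
        v.re < 1 ∧ L * y + (1 - v.re) ≤ ‖pt (L * y) u - v‖ ∧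
        zord v = analyticOrderNatAt riemannZeta v) ∧
      ∀ k : ℕ, ‖Dk (L * y) k u + ∑ v ∈ S, (zord v : ℂ) / (pt (L * y) u - v) ^ (k + 1)‖ ≤
        C * Λ / ((L + 2 + ε) * y) ^ (k + 1) := by
  have hη : 0 < ε / (L + 3) := by positivity
  have hη1 : ε / (L + 3) ≤ 1 := by
    rw [div_le_one (by linarith)]
    linarith
  obtain ⟨C0, hC0, hD⟩ := Pool.Agent.H76.SV.Dk_localV (A := L) (by linarith) hη hη1
  refine ⟨max C0 1, le_max_right _ _, fun y u Λ hy hy1 hu hΛ hΛu hΛa => ?_⟩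
  have ha : 0 < L * y := by positivity
  have hr : 0 < (L + 2 + ε) * y := by positivity
  have hy4 : y ≤ 1 / 4 := by linarith
  have c1 : L * y ≤ L := by nlinarith
  have c2 : L * y ≤ (L + 2 + ε) * y := by nlinarith
  have c3 : (1 + ε / (L + 3)) * ((L + 2 + ε) * y) ≤ L * y + 1 / 2 := by
    have e1 : ε / (L + 3) * (L + 2 + ε) ≤ ε := by
      rw [div_mul_eq_mul_div, div_le_iff₀ (by linarith)]
      nlinarith
    have e2 : ε / (L + 3) * (L + 2 + ε) * y ≤ ε * y := mul_le_mul_of_nonneg_right e1 hy.le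
    have e3 : (2 + 2 * ε) * y ≤ (2 + 2 * ε) * (1 / 4 - ε) :=
      mul_le_mul_of_nonneg_left hy1 (by positivity)
    nlinarith
  have c4 : (L + 2 + ε) * y ≤ |u| := by nlinarith
  obtain ⟨S, hS, -, hSk⟩ := hD (L * y) ((L + 2 + ε) * y) u Λ ha c1 c2 c3 c4 hΛ hΛu hΛa
  refine ⟨S, fun v hv => ?_, fun k => (hSk k).trans ?_⟩
  · obtain ⟨h1, h2⟩ := (hS v).1 hv
    set w : ℂ := pt (L * y) u - v with hw
    have hwre : w.re = 1 + L * y - v.re := by simp [hw, pt]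
    have hwim : w.im = u - v.im := by simp [hw, pt]
    have hv1 : v ≠ 1 := by
      intro h
      have h3 : |w.im| ≤ ‖w‖ := abs_im_le_norm w
      rw [hwim, h] at h3
      simp only [one_im, sub_zero] at h3
      linarith
    have hz : riemannZeta v = 0 := (zetaPole_eq_zero_iff hv1).1 h2
    have hre : v.re < 1 := re_lt_one hz
    have h4 : w.re ≤ ‖w‖ := re_le_norm w
    have h5 : L * y + (1 - v.re) ≤ ‖w‖ := by linarith [hwre ▸ h4]
    have h6 : 1 - (2 + ε) * y ≤ v.re := by nlinarith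
    have h7 : |v.im - u| ≤ 3 * (L + 1) * y := by
      rw [abs_sub_comm, ← hwim]
      refine abs_le_of_sq_le_sq ?_ (by positivity)
      have e1 : w.re ^ 2 + w.im ^ 2 = ‖w‖ ^ 2 := by
        rw [Complex.sq_norm, Complex.normSq_apply]
        ring
      have e2 : (L * y) ^ 2 ≤ w.re ^ 2 := by
        refine pow_le_pow_left₀ ha.le ?_ 2
        rw [hwre]
        linarith
      have e3 : ‖w‖ ^ 2 ≤ ((L + 2 + ε) * y) ^ 2 := pow_le_pow_left₀ (norm_nonneg _) h1.le 2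
      have e4 : (L + 2 + ε) ^ 2 - L ^ 2 ≤ 9 * (L + 1) ^ 2 := by nlinarith
      have e5 : ((L + 2 + ε) ^ 2 - L ^ 2) * y ^ 2 ≤ 9 * (L + 1) ^ 2 * y ^ 2 :=
        mul_le_mul_of_nonneg_right e4 (by positivity)
      nlinarith
    exact ⟨hz, h6, h7, hre, h5, zord_eq hv1⟩
  · apply div_le_div_of_nonneg_right _ (by positivity)
    exact mul_le_mul_of_nonneg_right (le_max_left _ _) (by linarith)

theorem kerP {L ε : ℝ} (hL : 1 ≤ L) (hε : 0 < ε) (hε1 : ε ≤ 1 / 4) : ∃ C : ℝ, 1 ≤ C ∧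
    ∀ (y u Λ : ℝ), 0 < y → y ≤ 1 / 4 - ε → L + 1 ≤ |u| → 1 ≤ Λ → Real.log (|u| + 2) ≤ Λ →
      Real.log (1 / (L * y)) ≤ Λ → ¬ Near ((2 + ε) * y) (3 * (L + 1) * y) u →
      ∀ k : ℕ, ‖Dk (L * y) k u‖ ≤ C * Λ / ((L + 2 + ε) * y) ^ (k + 1) := by
  obtain ⟨C, hC, h⟩ := ker_core hL hε hε1
  refine ⟨C, hC, fun y u Λ hy hy1 hu hΛ hΛu hΛa hN k => ?_⟩
  obtain ⟨S, hS, hSk⟩ := h y u Λ hy hy1 hu hΛ hΛu hΛa
  have hS0 : S = ∅ := by
    refine Finset.eq_empty_of_forall_notMem fun v hv => hN ?_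
    obtain ⟨h1, h2, h3, -⟩ := hS v hv
    exact ⟨v, h1, h2, h3⟩
  have h1 := hSk k
  rw [hS0, Finset.sum_empty, add_zero] at h1
  exact h1

theorem kerW {L ε : ℝ} (hL : 1 ≤ L) (hε : 0 < ε) (hε1 : ε ≤ 1 / 4) : ∃ C : ℝ, 1 ≤ C ∧
    ∀ (y u Λ H : ℝ) (Z : Finset ℂ), 0 < y → y ≤ 1 / 4 - ε → L + 1 ≤ |u| → |u| ≤ H → 1 ≤ Λ →
      Real.log (|u| + 2) ≤ Λ → Real.log (1 / (L * y)) ≤ Λ →
      (∀ v : ℂ, v ∈ Z ↔ v ∈ low (1 - (2 + ε) * y) (H + 3 * (L + 1) * y)) →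
      ∀ k : ℕ, ‖Dk (L * y) k u‖ ≤ C * Λ / ((L + 2 + ε) * y) ^ (k + 1) +
        ∑ v ∈ Z, (if |u - v.im| ≤ 3 * (L + 1) * y then
          (analyticOrderNatAt riemannZeta v : ℝ) / (L * y + (1 - v.re)) ^ (k + 1) else 0) := by
  obtain ⟨C, hC, h⟩ := ker_core hL hε hε1
  refine ⟨C, hC, fun y u Λ H Z hy hy1 hu huH hΛ hΛu hΛa hZ k => ?_⟩
  obtain ⟨S, hS, hSk⟩ := h y u Λ hy hy1 hu hΛ hΛu hΛa
  have ha : 0 < L * y := by positivity
  have hSZ : S ⊆ Z := by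
    intro v hv
    obtain ⟨h1, h2, h3, -⟩ := hS v hv
    refine (hZ v).2 ⟨h1, h2, ?_⟩
    calc |v.im| = |(v.im - u) + u| := by congr 1; ring
      _ ≤ |v.im - u| + |u| := abs_add_le _ _
      _ ≤ H + 3 * (L + 1) * y := by linarith
  have hsum : ‖∑ v ∈ S, (zord v : ℂ) / (pt (L * y) u - v) ^ (k + 1)‖ ≤
      ∑ v ∈ Z, (if |u - v.im| ≤ 3 * (L + 1) * y then
          (analyticOrderNatAt riemannZeta v : ℝ) / (L * y + (1 - v.re)) ^ (k + 1) else 0) := by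
    calc ‖∑ v ∈ S, (zord v : ℂ) / (pt (L * y) u - v) ^ (k + 1)‖
        ≤ ∑ v ∈ S, ‖(zord v : ℂ) / (pt (L * y) u - v) ^ (k + 1)‖ := norm_sum_le _ _
      _ ≤ ∑ v ∈ S, (if |u - v.im| ≤ 3 * (L + 1) * y then
          (analyticOrderNatAt riemannZeta v : ℝ) / (L * y + (1 - v.re)) ^ (k + 1) else 0) := by
          refine Finset.sum_le_sum fun v hv => ?_
          obtain ⟨-, -, h3, h4, h5, h6⟩ := hS v hv
          rw [if_pos (by rw [abs_sub_comm]; exact h3), norm_div, norm_pow, Complex.norm_natCast, h6]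
          have hp : 0 < L * y + (1 - v.re) := by linarith
          exact div_le_div_of_nonneg_left (Nat.cast_nonneg _) (pow_pos hp _)
            (pow_le_pow_left₀ hp.le h5 _)
      _ ≤ _ := by
          refine Finset.sum_le_sum_of_subset_of_nonneg hSZ fun v hv _ => ?_
          have hre : v.re < 1 := re_lt_one ((hZ v).1 hv).1
          split_ifs
          · have hp : 0 < L * y + (1 - v.re) := by linarith
            positivity
          · exact le_refl _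
  have e : Dk (L * y) k u = (Dk (L * y) k u + ∑ v ∈ S, (zord v : ℂ) / (pt (L * y) u - v) ^ (k + 1)) -
      ∑ v ∈ S, (zord v : ℂ) / (pt (L * y) u - v) ^ (k + 1) := by ring
  rw [e]
  exact (norm_sub_le _ _).trans (add_le_add (hSk k) hsum)

end Pool.Agent.H76.TR
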