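import Mathlib
import Pool.Agent.H76.TR.Defs

/-!
# SepC: counting in a separated set

`sep_count`: sort, or: the map `x ↦ ⌊x - (c - r)⌋` is injective on a 1-separated set (two points with
the same floor differ by less than 1) and its values are in `[0, ⌊2r⌋]`, at most `2r + 1` integers.
`sep_pairs`: sum over `x` of `sep_count` with centre `x - c`.  About 60 lines.
-/

set_option autoImplicit false

open Complex

namespace Pool.Agent.H76.TR

open scoped Classical in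
theorem sep_count (X : Finset ℝ) (hX : ∀ x ∈ X, ∀ y ∈ X, x ≠ y → 1 ≤ |x - y|) (c : ℝ) {r : ℝ}
    (hr : 0 ≤ r) : ((X.filter fun x => |x - c| ≤ r).card : ℝ) ≤ 2 * r + 1 := by
  have hinj : Set.InjOn (fun x : ℝ => ⌊x - (c - r)⌋) (X.filter fun x => |x - c| ≤ r) := by
    intro x hx y hy hxy
    rw [Finset.mem_coe, Finset.mem_filter] at hx hy
    by_contra hne
    have h1 := hX x hx.1 y hy.1 hne
    have h2 := Int.abs_sub_lt_one_of_floor_eq_floor hxy
    rw [sub_sub_sub_cancel_right] at h2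
    linarith
  have hmaps : ∀ x ∈ X.filter (fun x => |x - c| ≤ r),
      (fun x : ℝ => ⌊x - (c - r)⌋) x ∈ Finset.Icc (0 : ℤ) ⌊2 * r⌋ := by
    intro x hx
    rw [Finset.mem_filter, abs_le] at hx
    rw [Finset.mem_Icc]
    refine ⟨Int.floor_nonneg.mpr (by linarith [hx.2.1]), Int.floor_le_floor (by linarith [hx.2.2])⟩
  have hcard := Finset.card_le_card_of_injOn _ hmaps hinj
  rw [Int.card_Icc, sub_zero] at hcard
  have h0 : (0 : ℤ) ≤ ⌊2 * r⌋ := Int.floor_nonneg.mpr (by linarith)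
  have h2 : (((⌊2 * r⌋ + 1).toNat : ℕ) : ℝ) = (⌊2 * r⌋ : ℝ) + 1 := by
    have h3 : (((⌊2 * r⌋ + 1).toNat : ℕ) : ℤ) = ⌊2 * r⌋ + 1 := Int.toNat_of_nonneg (by linarith)
    have h4 : ((((⌊2 * r⌋ + 1).toNat : ℕ) : ℤ) : ℝ) = ((⌊2 * r⌋ + 1 : ℤ) : ℝ) := by rw [h3]
    push_cast at h4
    exact h4
  calc ((X.filter fun x => |x - c| ≤ r).card : ℝ) ≤ ((⌊2 * r⌋ + 1).toNat : ℝ) := by
        exact_mod_cast hcard
    _ = (⌊2 * r⌋ : ℝ) + 1 := h2
    _ ≤ 2 * r + 1 := by linarith [Int.floor_le (2 * r)]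

open scoped Classical in
theorem sep_pairs (X : Finset ℝ) (hX : ∀ x ∈ X, ∀ y ∈ X, x ≠ y → 1 ≤ |x - y|) (c : ℝ) {r : ℝ}
    (hr : 0 ≤ r) : (((X ×ˢ X).filter fun p => |p.1 - p.2 - c| ≤ r).card : ℝ) ≤
      X.card * (2 * r + 1) := by
  have h1 : ((X ×ˢ X).filter fun p => |p.1 - p.2 - c| ≤ r).card =
      ∑ x ∈ X, (X.filter fun y => |y - (x - c)| ≤ r).card := by
    rw [Finset.card_filter, Finset.sum_product]
    refine Finset.sum_congr rfl fun x _ => ?_
    rw [Finset.card_filter]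
    refine Finset.sum_congr rfl fun y _ => ?_
    have h2 : |x - y - c| = |y - (x - c)| := by
      rw [← abs_neg]
      congr 1
      ring
    simp only [h2]
  rw [h1]
  push_cast
  calc ∑ x ∈ X, ((X.filter fun y => |y - (x - c)| ≤ r).card : ℝ)
      ≤ ∑ _x ∈ X, (2 * r + 1) := Finset.sum_le_sum fun x _ => sep_count X hX (x - c) hr
    _ = X.card * (2 * r + 1) := by rw [Finset.sum_const, nsmul_eq_mul]

end Pool.Agent.H76.TR
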