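import Mathlib
import Pool.Agent.H76.CR.DerivL
import Pool.Agent.H76.SV.TailV
import Pool.Agent.H76.SV.Block
import Pool.Agent.H76.TR.Defs

/-!
# TotT: the total mass of the coefficients

`tailV` with `θ = 1/8`, `k0 = k`, `N1 = exp(3k/(4a))`, `N2 = exp(3k/(2a))`,
`F = Icc ⌈N1⌉ ⌊N2⌋`: the part outside `F` is at most `C/a^(k+1)`.  On `F`: `coef_le` (`SV/Block.lean`)
`a^k dco a k n ≤ log n / n`, so `a^(k+1) ∑_F ≤ a (log N2) (1 + log N2) ≤ a (9/4) (1 + k/a)^2`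
(harmonic sum `∑_{n ≤ N2} 1/n ≤ 1 + log N2`).  `summable_dco` for the splitting.  About 70 lines.
-/

set_option autoImplicit false

open Complex

namespace Pool.Agent.H76.TR

open Pool.Agent.H76.CR

private theorem harm_le {y : ℝ} (hy : 1 ≤ y) :
    ∑ n ∈ Finset.Icc 1 ⌊y⌋₊, (1 : ℝ) / n ≤ 1 + Real.log y := by
  have h1 : ∑ n ∈ Finset.Icc 1 ⌊y⌋₊, (1 : ℝ) / n = ((harmonic ⌊y⌋₊ : ℚ) : ℝ) := by
    rw [harmonic_eq_sum_Icc]
    push_cast
    simp only [one_div]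
  rw [h1]
  refine (harmonic_le_one_add_log _).trans ?_
  have h2 : (0 : ℝ) < (⌊y⌋₊ : ℝ) := by
    have : 1 ≤ ⌊y⌋₊ := (Nat.one_le_floor_iff y).2 hy
    exact_mod_cast this
  have h3 := Real.log_le_log h2 (Nat.floor_le (by linarith))
  linarith

theorem totT {A : ℝ} (hA : 0 < A) : ∃ C : ℝ, 1 ≤ C ∧ ∀ (a : ℝ) (k : ℕ), 0 < a → a ≤ A →
    a ^ (k + 1) * ∑' n : ℕ, dco a k n ≤ C * (1 + k / a) ^ 2 := by
  obtain ⟨C0, hC0, hT⟩ := Pool.Agent.H76.SV.tailV (θ := 1 / 8) (A := A) (by norm_num) le_rfl hA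
  refine ⟨C0 + 9 / 4 * A + 1, by linarith [mul_pos (by norm_num : (0 : ℝ) < 9 / 4) hA], ?_⟩
  intro a k ha haA
  have hk0 : (0 : ℝ) ≤ k := Nat.cast_nonneg _
  have hka : 0 ≤ (k : ℝ) / a := by positivity
  have hak1 : (0 : ℝ) < a ^ (k + 1) := by positivity
  set N1 : ℝ := Real.exp (3 * k / (4 * a)) with hN1
  set N2 : ℝ := Real.exp (3 * k / (2 * a)) with hN2
  have hN1p : 0 < N1 := Real.exp_pos _
  have hN2p : 0 < N2 := Real.exp_pos _
  have hN1one : 1 ≤ N1 := Real.one_le_exp (by positivity)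
  have hN2one : 1 ≤ N2 := Real.one_le_exp (by positivity)
  have hl1 : a * Real.log N1 = 3 * k / 4 := by
    rw [hN1, Real.log_exp]; field_simp
  have hl2 : a * Real.log N2 = 3 * k / 2 := by
    rw [hN2, Real.log_exp]; field_simp
  have hlog2 : Real.log N2 = 3 * k / (2 * a) := by rw [hN2, Real.log_exp]
  set F : Finset ℕ := Finset.Icc ⌈N1⌉₊ ⌊N2⌋₊ with hF
  have hF1 : ∀ n : ℕ, N1 ≤ n → (n : ℝ) ≤ N2 → n ∈ F := by
    intro n h1 h2
    rw [hF, Finset.mem_Icc]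
    exact ⟨Nat.ceil_le.2 h1, Nat.le_floor h2⟩
  have htail := hT a k k N1 N2 ha haA le_rfl (by linarith) hN1p hN2p
    (by rw [hl1]; linarith) (by rw [hl2]; linarith) F hF1
  have hexp : Real.exp (-((1 / 8 : ℝ) ^ 2 * k)) ≤ 1 := by
    rw [Real.exp_le_one_iff]
    have : 0 ≤ (1 / 8 : ℝ) ^ 2 * k := by positivity
    linarith
  have htail2 : ∑' n : ℕ, (if n ∈ F then 0 else dco a k n) ≤ C0 / a ^ (k + 1) := by
    refine htail.trans ?_
    have : C0 * Real.exp (-((1 / 8 : ℝ) ^ 2 * k)) ≤ C0 * 1 := by gcongr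
    calc C0 * Real.exp (-((1 / 8 : ℝ) ^ 2 * k)) / a ^ (k + 1) ≤ C0 * 1 / a ^ (k + 1) := by
          gcongr
      _ = C0 / a ^ (k + 1) := by rw [mul_one]
  have hsplit : ∑' n : ℕ, dco a k n =
      ∑' n : ℕ, (if n ∈ F then 0 else dco a k n) + ∑ n ∈ F, dco a k n := by
    have hS := summable_dco ha k
    have hfin : Summable (fun n : ℕ => if n ∈ F then dco a k n else 0) :=
      summable_of_ne_finset_zero (s := F) (fun n hn => if_neg hn)
    have e1 : ∑' n : ℕ, (if n ∈ F then dco a k n else 0) = ∑ n ∈ F, dco a k n := by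
      rw [tsum_eq_sum (s := F) (fun n hn => if_neg hn)]
      exact Finset.sum_congr rfl (fun n hn => if_pos hn)
    have hrest : Summable (fun n : ℕ => if n ∈ F then 0 else dco a k n) := by
      refine Summable.of_nonneg_of_le (fun n => ?_) (fun n => ?_) hS
      · by_cases hn : n ∈ F
        · simp only [if_pos hn]; exact le_rfl
        · simp only [if_neg hn]; exact dco_nonneg _ _ _
      · by_cases hn : n ∈ F
        · simp only [if_pos hn]; exact dco_nonneg _ _ _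
        · simp only [if_neg hn]; exact le_rfl
    rw [← e1, ← hrest.tsum_add hfin]
    refine tsum_congr fun n => ?_
    by_cases hn : n ∈ F
    · simp only [if_pos hn, zero_add]
    · simp only [if_neg hn, add_zero]
  have hsumF : a ^ (k + 1) * ∑ n ∈ F, dco a k n ≤ 9 / 4 * A * (1 + k / a) ^ 2 := by
    have h1 : a ^ (k + 1) * ∑ n ∈ F, dco a k n = a * ∑ n ∈ F, a ^ k * dco a k n := by
      rw [← Finset.mul_sum, pow_succ]; ring
    rw [h1]
    have h2 : ∑ n ∈ F, a ^ k * dco a k n ≤ ∑ n ∈ F, Real.log N2 * ((1 : ℝ) / n) := by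
      refine Finset.sum_le_sum fun n hn => ?_
      rw [hF, Finset.mem_Icc] at hn
      have hn1 : 1 ≤ n := by
        have : 1 ≤ ⌈N1⌉₊ := Nat.one_le_ceil_iff.2 hN1p
        exact this.trans hn.1
      have hn0 : (0 : ℝ) < n := by exact_mod_cast hn1
      have hnN : (n : ℝ) ≤ N2 := (Nat.le_floor_iff hN2p.le).1 hn.2
      refine (Pool.Agent.H76.SV.coef_le ha k n hn1).trans ?_
      rw [div_eq_mul_one_div]
      have := Real.log_le_log hn0 hnN
      gcongr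
    have h3 : ∑ n ∈ F, Real.log N2 * ((1 : ℝ) / n) ≤ Real.log N2 * (1 + Real.log N2) := by
      rw [← Finset.mul_sum]
      have hlN : 0 ≤ Real.log N2 := Real.log_nonneg hN2one
      have h4 : ∑ n ∈ F, (1 : ℝ) / n ≤ ∑ n ∈ Finset.Icc 1 ⌊N2⌋₊, (1 : ℝ) / n := by
        refine Finset.sum_le_sum_of_subset_of_nonneg ?_ (fun n _ _ => by positivity)
        rw [hF]
        exact Finset.Icc_subset_Icc_left (Nat.one_le_ceil_iff.2 hN1p)
      have h5 := h4.trans (harm_le hN2one)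
      gcongr
    have h6 : a * ∑ n ∈ F, a ^ k * dco a k n ≤ a * (Real.log N2 * (1 + Real.log N2)) := by
      have := h2.trans h3
      gcongr
    refine h6.trans ?_
    rw [hlog2]
    have e2 : a * (3 * k / (2 * a) * (1 + 3 * k / (2 * a))) =
        a * (3 / 2 * (k / a) * (1 + 3 / 2 * (k / a))) := by
      field_simp
    rw [e2]
    set y : ℝ := k / a with hy
    have h7 : 3 / 2 * y * (1 + 3 / 2 * y) ≤ 9 / 4 * (1 + y) ^ 2 := by nlinarith
    have h8 : 0 ≤ 3 / 2 * y * (1 + 3 / 2 * y) := by positivity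
    calc a * (3 / 2 * y * (1 + 3 / 2 * y)) ≤ A * (9 / 4 * (1 + y) ^ 2) := by gcongr
      _ = 9 / 4 * A * (1 + y) ^ 2 := by ring
  have hone : 1 ≤ (1 + (k : ℝ) / a) ^ 2 := by nlinarith
  have htail3 : a ^ (k + 1) * ∑' n : ℕ, (if n ∈ F then 0 else dco a k n) ≤ C0 := by
    calc a ^ (k + 1) * ∑' n : ℕ, (if n ∈ F then 0 else dco a k n)
        ≤ a ^ (k + 1) * (C0 / a ^ (k + 1)) := by gcongr
      _ = C0 := by field_simp
  rw [hsplit, mul_add]
  have h9 : C0 ≤ C0 * (1 + (k : ℝ) / a) ^ 2 := by nlinarith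
  have h10 : 0 ≤ (1 + (k : ℝ) / a) ^ 2 := by positivity
  calc a ^ (k + 1) * ∑' n : ℕ, (if n ∈ F then 0 else dco a k n) +
        a ^ (k + 1) * ∑ n ∈ F, dco a k n
      ≤ C0 * (1 + k / a) ^ 2 + 9 / 4 * A * (1 + k / a) ^ 2 := by
        exact add_le_add (htail3.trans h9) hsumF
    _ ≤ (C0 + 9 / 4 * A + 1) * (1 + k / a) ^ 2 := by nlinarith

end Pool.Agent.H76.TR
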