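import Mathlib
import Pool.Agent.H76.TR.SepC
import Pool.Agent.H76.TR.DualT
import Pool.Agent.H76.TR.TotT
import Pool.Agent.H76.TR.KerT

/-!
# PairP: the inequality for one `k`, and its two evaluations

`a = L y`.  `dualT` with `d_n = a^(k+1) dco a k n` (`dco a k 0 = 0` since `Λ(0) = 0`; `summable_dco`),
`D(t) = a^(k+1) Dk a k t`; `A' := ∑' d_n ≤ C (1 + k/a)^2 ≤ C (1+Λ)^2` (`totT`, `k ≤ a Λ`).
Pairs with `|x-y| < L + 1`: at most `card X (2(L+1)+1)` (`sep_pairs` with `c = 0`), each term `≤ A'`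
(`‖∑' d_n n^(-it)‖ ≤ ∑' d_n`).
`pairP`: the other pairs are near (term `≤ A'`, their number is at most `nearPairs`, a finite set) or
not (`kerP`: `a^(k+1) C Λ/((L+2+ε) y)^(k+1) = C Λ (L/(L+2+ε))^(k+1)`).
`pairW`: for the other pairs `kerW` (with `|x-y| ≤ H`): the first term as before; the second, with
`a^(k+1)/(a + (1-re v))^(k+1) = (1/(1 + (1 - re v)/a))^(k+1)`, exchange the sums: for each `v` at most
`card X (6(L+1)y + 1)` pairs (`sep_pairs`, `c = im v`).  About 170 lines.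
-/

set_option autoImplicit false

open Complex

namespace Pool.Agent.H76.TR

open Pool.Agent.H76.CR

private lemma dk_term_le {a : ℝ} (k : ℕ) (t : ℝ) (n : ℕ) :
    ‖(dco a k n : ℂ) * (n : ℂ) ^ (-(t * I))‖ ≤ dco a k n := by
  have h0 := dco_nonneg a k n
  rw [norm_mul, Complex.norm_real, Real.norm_of_nonneg h0]
  rcases Nat.eq_zero_or_pos n with h | h
  · subst h
    have : dco a k 0 = 0 := by simp [dco]
    rw [this]; simp
  · have h1 : ‖(n : ℂ) ^ (-(t * I))‖ = 1 := by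
      rw [Complex.norm_natCast_cpow_of_pos h]
      simp
    rw [h1, mul_one]

private lemma dk_le {a : ℝ} (ha : 0 < a) (k : ℕ) (t : ℝ) :
    ‖Dk a k t‖ ≤ ∑' n : ℕ, dco a k n := by
  unfold Dk
  exact tsum_of_norm_bounded (summable_dco ha k).hasSum (dk_term_le k t)

private lemma dual_ineq {a : ℝ} (ha : 0 < a) (k : ℕ) (X : Finset ℝ) {V M : ℝ} (hV : 0 ≤ V)
    (hM : a ^ (k + 1) * ∑' n : ℕ, dco a k n ≤ M)
    (hX : ∀ x ∈ X, V ≤ a ^ (k + 1) * ‖Dk a k x‖) :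
    (X.card * V) ^ 2 ≤ M * ∑ x ∈ X, ∑ z ∈ X, a ^ (k + 1) * ‖Dk a k (x - z)‖ := by
  have hak : 0 < a ^ (k + 1) := pow_pos ha _
  have key : ∀ t : ℝ, ‖∑' n : ℕ, ((a ^ (k + 1) * dco a k n : ℝ) : ℂ) * (n : ℂ) ^ (-(t * I))‖
      = a ^ (k + 1) * ‖Dk a k t‖ := by
    intro t
    have h1 : ∀ n : ℕ, ((a ^ (k + 1) * dco a k n : ℝ) : ℂ) * (n : ℂ) ^ (-(t * I))
        = ((a ^ (k + 1) : ℝ) : ℂ) * ((dco a k n : ℂ) * (n : ℂ) ^ (-(t * I))) := by
      intro n; push_cast; ring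
    simp only [h1]
    rw [tsum_mul_left, norm_mul, Complex.norm_real, Real.norm_of_nonneg hak.le]
    rfl
  have hd := dualT (fun n => a ^ (k + 1) * dco a k n)
    (fun n => mul_nonneg hak.le (dco_nonneg a k n)) (by simp [dco])
    ((summable_dco ha k).mul_left _) X V hV (fun x hx => by rw [key]; exact hX x hx)
  have h2 : ∑' n : ℕ, a ^ (k + 1) * dco a k n ≤ M := by rw [tsum_mul_left]; exact hM
  have h3 : ∑ x ∈ X, ∑ z ∈ X, ‖∑' n : ℕ, ((a ^ (k + 1) * dco a k n : ℝ) : ℂ) *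
      (n : ℂ) ^ (-(((x - z : ℝ) : ℂ) * I))‖ =
      ∑ x ∈ X, ∑ z ∈ X, a ^ (k + 1) * ‖Dk a k (x - z)‖ :=
    Finset.sum_congr rfl fun x _ => Finset.sum_congr rfl fun z _ => key (x - z)
  rw [h3] at hd
  refine hd.trans (mul_le_mul_of_nonneg_right h2 ?_)
  exact Finset.sum_nonneg fun x _ => Finset.sum_nonneg fun z _ =>
    mul_nonneg hak.le (norm_nonneg _)

open scoped Classical in
private lemma sum_ind (X : Finset ℝ) (P : ℝ → Prop) (c : ℝ) :
    ∑ x ∈ X, ∑ z ∈ X, (if P (x - z) then c else 0) =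
      c * (((X ×ˢ X).filter fun p => P (p.1 - p.2)).card : ℝ) := by
  rw [← Finset.sum_product', ← Finset.sum_filter, Finset.sum_const, nsmul_eq_mul]
  ring

private lemma ratio_eq {L y ε : ℝ} (hy : 0 < y) (k : ℕ) (c : ℝ) :
    (L * y) ^ (k + 1) * (c / ((L + 2 + ε) * y) ^ (k + 1)) = c * (L / (L + 2 + ε)) ^ (k + 1) := by
  have h : L / (L + 2 + ε) = (L * y) / ((L + 2 + ε) * y) := by
    rw [mul_div_mul_right _ _ hy.ne']
  rw [h, div_pow]
  ring

theorem pairP {L ε : ℝ} (hL : 1 ≤ L) (hε : 0 < ε) (hε1 : ε ≤ 1 / 4) : ∃ C : ℝ, 1 ≤ C ∧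
    ∀ (y V Λ H : ℝ) (k : ℕ) (X : Finset ℝ), 0 < y → y ≤ 1 / 4 - ε → 0 ≤ V → 1 ≤ Λ →
      Real.log (H + 2) ≤ Λ → Real.log (1 / (L * y)) ≤ Λ → (k : ℝ) ≤ L * y * Λ →
      (∀ x ∈ X, ∀ z ∈ X, |x - z| ≤ H) → (∀ x ∈ X, ∀ z ∈ X, x ≠ z → 1 ≤ |x - z|) →
      (∀ x ∈ X, V ≤ (L * y) ^ (k + 1) * ‖Dk (L * y) k x‖) →
      (X.card * V) ^ 2 ≤
        C * (1 + Λ) ^ 4 * (X.card + nearPairs ((2 + ε) * y) (3 * (L + 1) * y) X) +
        C * (1 + Λ) ^ 3 * (L / (L + 2 + ε)) ^ (k + 1) * X.card ^ 2 := by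
  classical
  obtain ⟨C1, hC1, htot⟩ := totT (A := L) (by linarith)
  obtain ⟨C2, hC2, hker⟩ := kerP hL hε hε1
  refine ⟨C1 ^ 2 * (2 * L + 3) + C1 * C2, by nlinarith, ?_⟩
  intro y V Λ H k X hy hy1 hV hΛ hH hay hk hXH hsep hX
  set a := L * y with ha_def
  have ha : 0 < a := by positivity
  have haL : a ≤ L := by nlinarith
  have hak : 0 < a ^ (k + 1) := pow_pos ha _
  set M := C1 * (1 + Λ) ^ 2 with hM_def
  have hM1 : 1 ≤ M := by nlinarith
  have hMtot : a ^ (k + 1) * ∑' n : ℕ, dco a k n ≤ M := by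
    refine (htot a k ha haL).trans ?_
    have h1 : (k : ℝ) / a ≤ Λ := by rw [div_le_iff₀ ha]; linarith
    have h2 : 0 ≤ (k : ℝ) / a := by positivity
    exact mul_le_mul_of_nonneg_left (pow_le_pow_left₀ (by linarith) (by linarith) 2) (by linarith)
  set ρ := L / (L + 2 + ε) with hρ
  have hρ0 : 0 ≤ ρ := by positivity
  set K := C2 * Λ * ρ ^ (k + 1) with hK
  have hK0 : 0 ≤ K := by positivity
  have hmain := dual_ineq ha k X hV hMtot hX
  have hT : ∀ t : ℝ, a ^ (k + 1) * ‖Dk a k t‖ ≤ M := fun t =>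
    (mul_le_mul_of_nonneg_left (dk_le ha k t) hak.le).trans hMtot
  set n : ℝ := (X.card : ℝ) with hn
  have hn0 : 0 ≤ n := by positivity
  set q := (2 + ε) * y
  set r := 3 * (L + 1) * y
  have hpt : ∀ x ∈ X, ∀ z ∈ X, a ^ (k + 1) * ‖Dk a k (x - z)‖ ≤
      (if |x - z - 0| ≤ L + 1 then M else 0) + (if Near q r (x - z) then M else 0) + K := by
    intro x hx z hz
    by_cases h1 : |x - z - 0| ≤ L + 1
    · rw [if_pos h1]
      have : 0 ≤ (if Near q r (x - z) then M else 0) := by split_ifs <;> linarith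
      linarith [hT (x - z)]
    · rw [if_neg h1]
      by_cases h2 : Near q r (x - z)
      · rw [if_pos h2]
        linarith [hT (x - z)]
      · rw [if_neg h2]
        rw [sub_zero] at h1
        push Not at h1
        have h3 : Real.log (|x - z| + 2) ≤ Λ := by
          refine le_trans (Real.log_le_log (by positivity) ?_) hH
          linarith [hXH x hx z hz]
        have h4 := hker y (x - z) Λ hy hy1 h1.le hΛ h3 hay h2 k
        have h5 := mul_le_mul_of_nonneg_left h4 hak.le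
        rw [ha_def, ratio_eq hy] at h5
        linarith
  have hsum : ∑ x ∈ X, ∑ z ∈ X, a ^ (k + 1) * ‖Dk a k (x - z)‖ ≤
      M * (n * (2 * (L + 1) + 1)) + M * nearPairs q r X + K * n ^ 2 := by
    refine (Finset.sum_le_sum fun x hx => Finset.sum_le_sum fun z hz => hpt x hx z hz).trans ?_
    simp only [Finset.sum_add_distrib]
    rw [sum_ind X (fun u => |u - 0| ≤ L + 1) M, sum_ind X (fun u => Near q r u) M]
    have h1 := sep_pairs X hsep 0 (r := L + 1) (by linarith)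
    have h2 : (((X ×ˢ X).filter fun p => Near q r (p.1 - p.2)).card : ℝ) = nearPairs q r X := by
      rw [nearPairs, ← Set.ncard_coe_finset]
      congr 2
      ext p
      simp [and_assoc]
    have h3 : ∑ x ∈ X, ∑ z ∈ X, K = K * n ^ 2 := by
      simp only [Finset.sum_const, nsmul_eq_mul, hn]; ring
    rw [h2, h3]
    have h4 := mul_le_mul_of_nonneg_left h1 (by linarith : (0 : ℝ) ≤ M)
    linarith
  have hfin : (n * V) ^ 2 ≤ M * (M * (n * (2 * (L + 1) + 1)) + M * nearPairs q r X + K * n ^ 2) :=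
    hmain.trans (mul_le_mul_of_nonneg_left hsum (by linarith))
  refine hfin.trans ?_
  set N : ℝ := (nearPairs q r X : ℝ) with hN
  have hN0 : 0 ≤ N := by positivity
  have e1 : M * (M * (n * (2 * (L + 1) + 1)) + M * N + K * n ^ 2) =
      C1 ^ 2 * (1 + Λ) ^ 4 * ((2 * L + 3) * n + N) +
      C1 * C2 * ((1 + Λ) ^ 2 * Λ) * ρ ^ (k + 1) * n ^ 2 := by
    rw [hM_def, hK]; ring
  rw [e1]
  have hC12 : 0 ≤ C1 * C2 := by positivity
  have h5 : C1 ^ 2 * (1 + Λ) ^ 4 * ((2 * L + 3) * n + N) ≤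
      (C1 ^ 2 * (2 * L + 3) + C1 * C2) * (1 + Λ) ^ 4 * (n + N) := by
    have h6 : (2 * L + 3) * n + N ≤ (2 * L + 3) * (n + N) := by nlinarith
    have h7 : 0 ≤ C1 ^ 2 * (1 + Λ) ^ 4 := by positivity
    have h8 : 0 ≤ C1 * C2 * (1 + Λ) ^ 4 * (n + N) := by positivity
    nlinarith [mul_le_mul_of_nonneg_left h6 h7]
  have h9 : C1 * C2 * ((1 + Λ) ^ 2 * Λ) * ρ ^ (k + 1) * n ^ 2 ≤
      (C1 ^ 2 * (2 * L + 3) + C1 * C2) * (1 + Λ) ^ 3 * ρ ^ (k + 1) * n ^ 2 := by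
    have h10 : (1 + Λ) ^ 2 * Λ ≤ (1 + Λ) ^ 3 := by nlinarith [sq_nonneg (1 + Λ)]
    have h11 : C1 * C2 * ((1 + Λ) ^ 2 * Λ) ≤ (C1 ^ 2 * (2 * L + 3) + C1 * C2) * (1 + Λ) ^ 3 := by
      have h12 : 0 ≤ C1 ^ 2 * (2 * L + 3) * (1 + Λ) ^ 3 := by positivity
      nlinarith [mul_le_mul_of_nonneg_left h10 hC12]
    exact mul_le_mul_of_nonneg_right (mul_le_mul_of_nonneg_right h11 (by positivity)) (by positivity)
  exact add_le_add h5 h9

theorem pairW {L ε : ℝ} (hL : 1 ≤ L) (hε : 0 < ε) (hε1 : ε ≤ 1 / 4) : ∃ C : ℝ, 1 ≤ C ∧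
    ∀ (y V Λ H : ℝ) (k : ℕ) (X : Finset ℝ) (Z : Finset ℂ), 0 < y → y ≤ 1 / 4 - ε → 0 ≤ V →
      1 ≤ Λ → Real.log (H + 2) ≤ Λ → Real.log (1 / (L * y)) ≤ Λ → (k : ℝ) ≤ L * y * Λ →
      (∀ v : ℂ, v ∈ Z ↔ v ∈ low (1 - (2 + ε) * y) (H + 3 * (L + 1) * y)) →
      (∀ x ∈ X, ∀ z ∈ X, |x - z| ≤ H) → (∀ x ∈ X, ∀ z ∈ X, x ≠ z → 1 ≤ |x - z|) →
      (∀ x ∈ X, V ≤ (L * y) ^ (k + 1) * ‖Dk (L * y) k x‖) →
      (X.card * V) ^ 2 ≤
        C * (1 + Λ) ^ 4 * X.card * (1 + ∑ v ∈ Z, (analyticOrderNatAt riemannZeta v : ℝ) *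
          (1 / (1 + (1 - v.re) / (L * y))) ^ (k + 1)) +
        C * (1 + Λ) ^ 3 * (L / (L + 2 + ε)) ^ (k + 1) * X.card ^ 2 := by
  classical
  obtain ⟨C1, hC1, htot⟩ := totT (A := L) (by linarith)
  obtain ⟨C2, hC2, hker⟩ := kerW hL hε hε1
  refine ⟨C1 ^ 2 * (2 * L + 3) + C1 * C2, by nlinarith, ?_⟩
  intro y V Λ H k X Z hy hy1 hV hΛ hH hay hk hZ hXH hsep hX
  set a := L * y with ha_def
  have ha : 0 < a := by positivity
  have haL : a ≤ L := by nlinarith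
  have hak : 0 < a ^ (k + 1) := pow_pos ha _
  set M := C1 * (1 + Λ) ^ 2 with hM_def
  have hM1 : 1 ≤ M := by nlinarith
  have hMtot : a ^ (k + 1) * ∑' n : ℕ, dco a k n ≤ M := by
    refine (htot a k ha haL).trans ?_
    have h1 : (k : ℝ) / a ≤ Λ := by rw [div_le_iff₀ ha]; linarith
    have h2 : 0 ≤ (k : ℝ) / a := by positivity
    exact mul_le_mul_of_nonneg_left (pow_le_pow_left₀ (by linarith) (by linarith) 2) (by linarith)
  set ρ := L / (L + 2 + ε) with hρ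
  have hρ0 : 0 ≤ ρ := by positivity
  set K := C2 * Λ * ρ ^ (k + 1) with hK
  have hK0 : 0 ≤ K := by positivity
  have hmain := dual_ineq ha k X hV hMtot hX
  have hT : ∀ t : ℝ, a ^ (k + 1) * ‖Dk a k t‖ ≤ M := fun t =>
    (mul_le_mul_of_nonneg_left (dk_le ha k t) hak.le).trans hMtot
  set n : ℝ := (X.card : ℝ) with hn
  have hn0 : 0 ≤ n := by positivity
  set r := 3 * (L + 1) * y with hr
  have hr0 : 0 ≤ r := by positivity
  have hr1 : 2 * r + 1 ≤ 2 * L + 3 := by nlinarith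
  -- the weights
  set W : ℂ → ℝ := fun v => (analyticOrderNatAt riemannZeta v : ℝ) *
    (1 / (1 + (1 - v.re) / a)) ^ (k + 1) with hW
  have hW0 : ∀ v ∈ Z, 0 ≤ W v := by
    intro v hv
    have h1 := (hZ v).1 hv
    have h2 : v.re < 1 := by
      by_contra h
      exact riemannZeta_ne_zero_of_one_le_re (not_lt.1 h) h1.1
    have h3 : 0 < 1 - v.re := by linarith
    have : 0 < 1 + (1 - v.re) / a := by positivity
    positivity
  have hWeq : ∀ v : ℂ, a ^ (k + 1) * ((analyticOrderNatAt riemannZeta v : ℝ) /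
      (a + (1 - v.re)) ^ (k + 1)) = W v := by
    intro v
    have h1 : 1 / (1 + (1 - v.re) / a) = a / (a + (1 - v.re)) := by
      rw [show 1 + (1 - v.re) / a = (a + (1 - v.re)) / a by field_simp, one_div_div]
    simp only [hW]
    rw [h1, div_pow]
    ring
  have hpt : ∀ x ∈ X, ∀ z ∈ X, a ^ (k + 1) * ‖Dk a k (x - z)‖ ≤
      (if |x - z - 0| ≤ L + 1 then M else 0) +
        (∑ v ∈ Z, if |x - z - v.im| ≤ r then W v else 0) + K := by
    intro x hx z hz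
    have hS0 : 0 ≤ ∑ v ∈ Z, (if |x - z - v.im| ≤ r then W v else 0) := by
      refine Finset.sum_nonneg fun v hv => ?_
      split_ifs
      · exact hW0 v hv
      · exact le_rfl
    by_cases h1 : |x - z - 0| ≤ L + 1
    · rw [if_pos h1]
      linarith [hT (x - z)]
    · rw [if_neg h1]
      rw [sub_zero] at h1
      push Not at h1
      have h3 : Real.log (|x - z| + 2) ≤ Λ := by
        refine le_trans (Real.log_le_log (by positivity) ?_) hH
        linarith [hXH x hx z hz]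
      have h4 := hker y (x - z) Λ H Z hy hy1 h1.le (hXH x hx z hz) hΛ h3 hay hZ k
      have h5 := mul_le_mul_of_nonneg_left h4 hak.le
      rw [mul_add, ← hr, Finset.mul_sum] at h5
      have h6 : ∑ v ∈ Z, a ^ (k + 1) * (if |x - z - v.im| ≤ r then
          (analyticOrderNatAt riemannZeta v : ℝ) / (L * y + (1 - v.re)) ^ (k + 1) else 0) =
          ∑ v ∈ Z, (if |x - z - v.im| ≤ r then W v else 0) := by
        refine Finset.sum_congr rfl fun v _ => ?_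
        rw [mul_ite, mul_zero, ← ha_def, hWeq]
      have h7 : a ^ (k + 1) * (C2 * Λ / ((L + 2 + ε) * y) ^ (k + 1)) = K := by
        rw [ha_def, ratio_eq hy]
      rw [h6, h7] at h5
      linarith
  have hsum : ∑ x ∈ X, ∑ z ∈ X, a ^ (k + 1) * ‖Dk a k (x - z)‖ ≤
      M * (n * (2 * (L + 1) + 1)) + (n * (2 * L + 3)) * (∑ v ∈ Z, W v) + K * n ^ 2 := by
    refine (Finset.sum_le_sum fun x hx => Finset.sum_le_sum fun z hz => hpt x hx z hz).trans ?_
    simp only [Finset.sum_add_distrib]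
    rw [sum_ind X (fun u => |u - 0| ≤ L + 1) M]
    have h1 := sep_pairs X hsep 0 (r := L + 1) (by linarith)
    have h3 : ∑ x ∈ X, ∑ z ∈ X, K = K * n ^ 2 := by
      simp only [Finset.sum_const, nsmul_eq_mul, hn]; ring
    have h2 : ∑ x ∈ X, ∑ z ∈ X, ∑ v ∈ Z, (if |x - z - v.im| ≤ r then W v else 0) ≤
        (n * (2 * L + 3)) * (∑ v ∈ Z, W v) := by
      have e1 : ∑ x ∈ X, ∑ z ∈ X, ∑ v ∈ Z, (if |x - z - v.im| ≤ r then W v else 0) =
          ∑ v ∈ Z, ∑ x ∈ X, ∑ z ∈ X, (if |x - z - v.im| ≤ r then W v else 0) := by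
        rw [Finset.sum_comm' (s := X) (t := fun _ => X) (t' := X) (s' := fun _ => X)
          (by intro x z; tauto)]
        rw [Finset.sum_congr rfl fun z _ => Finset.sum_comm]
        rw [Finset.sum_comm]
        exact Finset.sum_congr rfl fun v _ => Finset.sum_comm
      rw [e1, Finset.mul_sum]
      refine Finset.sum_le_sum fun v hv => ?_
      rw [sum_ind X (fun u => |u - v.im| ≤ r) (W v)]
      have h5 := sep_pairs X hsep v.im (r := r) hr0
      have h6 : (X.card : ℝ) * (2 * r + 1) ≤ n * (2 * L + 3) :=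
        mul_le_mul_of_nonneg_left hr1 hn0
      calc W v * _ ≤ W v * (n * (2 * L + 3)) :=
            mul_le_mul_of_nonneg_left (h5.trans h6) (hW0 v hv)
        _ = n * (2 * L + 3) * W v := by ring
    rw [h3]
    have h4 := mul_le_mul_of_nonneg_left h1 (by linarith : (0 : ℝ) ≤ M)
    linarith
  have hfin := hmain.trans (mul_le_mul_of_nonneg_left hsum (by linarith : (0 : ℝ) ≤ M))
  refine hfin.trans ?_
  set S : ℝ := ∑ v ∈ Z, W v with hS
  have hS0 : 0 ≤ S := Finset.sum_nonneg hW0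
  have e1 : M * (M * (n * (2 * (L + 1) + 1)) + (n * (2 * L + 3)) * S + K * n ^ 2) =
      M * (2 * L + 3) * n * (M + S) +
      C1 * C2 * ((1 + Λ) ^ 2 * Λ) * ρ ^ (k + 1) * n ^ 2 := by
    rw [hM_def, hK]; ring
  rw [e1]
  have hC12 : 0 ≤ C1 * C2 := by positivity
  have h5 : M * (2 * L + 3) * n * (M + S) ≤
      (C1 ^ 2 * (2 * L + 3) + C1 * C2) * (1 + Λ) ^ 4 * n * (1 + S) := by
    have h6 : M + S ≤ M * (1 + S) := by nlinarith
    have h7 : 0 ≤ M * (2 * L + 3) * n := by positivity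
    have h8 : 0 ≤ C1 * C2 * (1 + Λ) ^ 4 * n * (1 + S) := by positivity
    have h9 : M * (2 * L + 3) * n * (M * (1 + S)) =
        C1 ^ 2 * (2 * L + 3) * (1 + Λ) ^ 4 * n * (1 + S) := by rw [hM_def]; ring
    nlinarith [mul_le_mul_of_nonneg_left h6 h7]
  have h9 : C1 * C2 * ((1 + Λ) ^ 2 * Λ) * ρ ^ (k + 1) * n ^ 2 ≤
      (C1 ^ 2 * (2 * L + 3) + C1 * C2) * (1 + Λ) ^ 3 * ρ ^ (k + 1) * n ^ 2 := by
    have h10 : (1 + Λ) ^ 2 * Λ ≤ (1 + Λ) ^ 3 := by nlinarith [sq_nonneg (1 + Λ)]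
    have h11 : C1 * C2 * ((1 + Λ) ^ 2 * Λ) ≤ (C1 ^ 2 * (2 * L + 3) + C1 * C2) * (1 + Λ) ^ 3 := by
      have h12 : 0 ≤ C1 ^ 2 * (2 * L + 3) * (1 + Λ) ^ 3 := by positivity
      nlinarith [mul_le_mul_of_nonneg_left h10 hC12]
    exact mul_le_mul_of_nonneg_right (mul_le_mul_of_nonneg_right h11 (by positivity)) (by positivity)
  exact add_le_add h5 h9

end Pool.Agent.H76.TR
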