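import Mathlib
import Pool.Agent.H76.SV.Num
import Pool.Agent.H76.TR.PairP
import Pool.Agent.H76.TR.NumT

/-!
# BadT: many separated ordinates force many near differences

`W = log (T+N)`; from `W^C ≤ N^y` and `T ≥ C`: `W` is larger than any constant, `y log N ≥ C log W`,
so `N ≥ 2`, `log (T+2) ≤ W`, `1/(L y) ≤ log N`, `log (1/(L y)) ≤ W`.
Choose `k(x)` for `x ∈ X`; `k(x) ≤ L y log N ≤ L W`, so for some `k` the set `X_k` has
`card X ≤ 2 L W card X_k` (`Finset.exists_le_card_fiber_of_mul_le_card_of_maps_to` or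
`card_le_mul_card_image`).  `pairP` (constant `C1`, `Λ = W`, `H = T`, `V = N^(-(1+θ)y)`) and `decay1`:
`card_k^2 V^2 ≤ 16 C1 W^4 (card_k + nearPairs X) + 8 C1 W^3 N^(-(2+3ε/4)y) card_k^2`
(`nearPairs` is monotone in the set).  `V^2 = N^(-(2+ε/28)y)` (`2θ = ε/28`).  By `absorb`
(`SV/Num.lean`, `q = ε/4`): `32 C1 W^3 ≤ N^((ε/4) y)`, so the last term is at most a quarter of the
left side; `card_k ≥ N^((2+ε/2)y)/(2 L W)` and `128 C1 L W^5 ≤ N^((ε/4)y)`: the first one too.  So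
`nearPairs X ≥ card_k^2 V^2/(32 C1 W^4) ≥ card^2 N^(-(2+ε/28)y)/(128 C1 L^2 W^6)` and
`128 C1 L^2 W^6 ≤ N^((ε/4) y)`.
`winT`: the same with `pairW` for every `k`, `decay2` for the weights (`0 ≤ 1 - re v ≤ (2+ε)y` for
`v ∈ low`), `lowSum_eq` (`Z` is the `toFinset`): `card_k ≤ 32 C1 W^4 N^((2+ε/28)y) (1 + lowSum)`,
sum over at most `2 L W` values of `k`.  About 220 lines.
-/

set_option autoImplicit false

open Complex

namespace Pool.Agent.H76.TR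

open Pool.Agent.H76.CR

private theorem basic {B C L y N T : ℝ} (hy : 0 < y) (hy1 : y ≤ 1 / 4) (hL : 1 ≤ L)
    (hB : 0 ≤ B) (hC1 : 1 ≤ C) (hC : Real.exp (B + 4) ≤ C) (hN : 1 ≤ N) (hT : C ≤ T)
    (h : Real.log (T + N) ^ C ≤ N ^ y) :
    B + 4 ≤ Real.log (T + N) ∧ 2 ≤ N ∧ Real.log N ≤ Real.log (T + N) ∧
      Real.log (1 / (L * y)) ≤ Real.log (T + N) ∧ 0 ≤ Real.log N := by
  have hN0 : 0 < N := by linarith
  have hT0 : 0 < T := by linarith
  have hW : B + 4 ≤ Real.log (T + N) := by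
    rw [Real.le_log_iff_exp_le (by linarith)]
    linarith
  obtain ⟨W, hW'⟩ : ∃ W : ℝ, W = Real.log (T + N) := ⟨_, rfl⟩
  rw [← hW'] at hW h ⊢
  have hW0 : 0 < W := by linarith
  have h1 : 1 ≤ Real.log W := by
    rw [Real.le_log_iff_exp_le hW0]
    have := Real.exp_one_lt_d9
    linarith
  have h2 : C * Real.log W ≤ y * Real.log N := by
    have := Real.log_le_log (Real.rpow_pos_of_pos hW0 _) h
    rwa [Real.log_rpow hW0, Real.log_rpow hN0] at this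
  have h3 : C * 1 ≤ C * Real.log W := mul_le_mul_of_nonneg_left h1 (by linarith)
  have h4 : 0 ≤ Real.log N := Real.log_nonneg hN
  have h5 : y * Real.log N ≤ 1 / 4 * Real.log N := mul_le_mul_of_nonneg_right hy1 h4
  have h6 : Real.log N ≤ W := by
    rw [hW']
    exact Real.log_le_log hN0 (by linarith)
  refine ⟨hW, ?_, h6, ?_, h4⟩
  · have h7 : 1 ≤ Real.log N := by linarith
    rw [Real.le_log_iff_exp_le hN0] at h7
    have := Real.exp_one_gt_d9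
    linarith
  · have hLy : 0 < L * y := by positivity
    have h8 : 1 / (L * y) ≤ Real.log N := by
      rw [div_le_iff₀ hLy]
      have h9 : 1 * (y * Real.log N) ≤ L * (y * Real.log N) :=
        mul_le_mul_of_nonneg_right hL (by positivity)
      have h10 : Real.log N * (L * y) = L * (y * Real.log N) := by ring
      rw [h10]
      linarith
    have h11 := Real.log_le_sub_one_of_pos (show 0 < 1 / (L * y) by positivity)
    linarith

private theorem exps {N y ε : ℝ} (hN : 1 ≤ N) (hy : 0 < y) (hε : 0 < ε) :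
    N ^ (-((2 + 3 * ε / 4) * y)) * N ^ (ε / 4 * y) ≤ N ^ (-((2 + ε / 28) * y)) ∧
    N ^ (ε / 4 * y) * N ^ ((2 + ε / 28) * y) ≤ N ^ ((2 + ε / 2) * y) ∧
    N ^ (-((2 + ε / 2) * y)) * N ^ (ε / 4 * y) ≤ N ^ (-((2 + ε / 28) * y)) ∧
    N ^ ((2 + ε / 28) * y) * N ^ (-((2 + ε / 28) * y)) = 1 := by
  have hN0 : 0 < N := by linarith
  have hεy : 0 < ε * y := by positivity
  refine ⟨?_, ?_, ?_, ?_⟩
  · rw [← Real.rpow_add hN0]
    apply Real.rpow_le_rpow_of_exponent_le hN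
    linarith
  · rw [← Real.rpow_add hN0]
    apply Real.rpow_le_rpow_of_exponent_le hN
    linarith
  · rw [← Real.rpow_add hN0]
    apply Real.rpow_le_rpow_of_exponent_le hN
    linarith
  · rw [← Real.rpow_add hN0, add_neg_cancel, Real.rpow_zero]

private theorem vsq {N y ε θ : ℝ} (hN : 0 < N) (hθ : θ = ε / 56) :
    (N ^ (-((1 + θ) * y))) ^ 2 = N ^ (-((2 + ε / 28) * y)) := by
  rw [← Real.rpow_natCast, ← Real.rpow_mul hN.le]
  congr 1
  rw [hθ]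
  push_cast
  ring

private theorem third {C1 W D c E0 G E1 L : ℝ} (hC1 : 1 ≤ C1) (hW : 1 ≤ W) (hD0 : 0 ≤ D)
    (hD : D ≤ E0) (hG : 64 * C1 * L ^ 2 * W ^ 6 ≤ G) (hL : 1 ≤ L) (hE : E0 * G ≤ E1) :
    C1 * (1 + W) ^ 3 * D * c ^ 2 ≤ 1 / 4 * (c ^ 2 * E1) := by
  have hC0 : 0 ≤ C1 := by linarith
  have h1 : (1 + W) ^ 3 ≤ (2 * W) ^ 3 := pow_le_pow_left₀ (by linarith) (by linarith) 3
  have h2 : C1 * (1 + W) ^ 3 ≤ C1 * (2 * W) ^ 3 := mul_le_mul_of_nonneg_left h1 hC0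
  have h3 : W ^ 3 ≤ W ^ 6 := pow_le_pow_right₀ hW (by norm_num)
  have hL2 : 1 ≤ L ^ 2 := one_le_pow₀ hL
  have hW3 : 0 ≤ W ^ 3 := by positivity
  have h4 : 4 * (C1 * (2 * W) ^ 3) ≤ G := by
    have e1 : 4 * (C1 * (2 * W) ^ 3) = 32 * (C1 * W ^ 3) := by ring
    have e2 : C1 * W ^ 3 ≤ C1 * W ^ 6 := mul_le_mul_of_nonneg_left h3 hC0
    have e3 : C1 * W ^ 6 * 1 ≤ C1 * W ^ 6 * L ^ 2 :=
      mul_le_mul_of_nonneg_left hL2 (by positivity)
    have e4 : 64 * C1 * L ^ 2 * W ^ 6 = 64 * (C1 * W ^ 6 * L ^ 2) := by ring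
    rw [e4] at hG
    have e5 : 0 ≤ C1 * W ^ 6 * L ^ 2 := by positivity
    rw [e1]
    linarith
  have hE0 : 0 ≤ E0 := hD0.trans hD
  have h5 : C1 * (1 + W) ^ 3 * D ≤ C1 * (2 * W) ^ 3 * E0 :=
    mul_le_mul h2 hD hD0 (by positivity)
  have h6 : 4 * (C1 * (2 * W) ^ 3) * E0 ≤ G * E0 := mul_le_mul_of_nonneg_right h4 hE0
  have h7 : C1 * (1 + W) ^ 3 * D ≤ 1 / 4 * E1 := by
    have e1 : 4 * (C1 * (2 * W) ^ 3) * E0 = 4 * (C1 * (2 * W) ^ 3 * E0) := by ring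
    rw [e1] at h6
    have e2 : G * E0 = E0 * G := by ring
    rw [e2] at h6
    linarith
  calc C1 * (1 + W) ^ 3 * D * c ^ 2 ≤ 1 / 4 * E1 * c ^ 2 :=
        mul_le_mul_of_nonneg_right h7 (sq_nonneg _)
    _ = 1 / 4 * (c ^ 2 * E1) := by ring

private theorem one_add_four {C1 W z : ℝ} (hC1 : 0 ≤ C1) (hW : 1 ≤ W) (hz : 0 ≤ z) :
    C1 * (1 + W) ^ 4 * z ≤ 16 * (C1 * W ^ 4 * z) := by
  have h1 : (1 + W) ^ 4 ≤ (2 * W) ^ 4 := pow_le_pow_left₀ (by linarith) (by linarith) 4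
  have h2 : C1 * (1 + W) ^ 4 ≤ C1 * (2 * W) ^ 4 := mul_le_mul_of_nonneg_left h1 hC1
  calc C1 * (1 + W) ^ 4 * z ≤ C1 * (2 * W) ^ 4 * z := mul_le_mul_of_nonneg_right h2 hz
    _ = _ := by ring

/-- the numerical end of `badT` -/
private theorem endB {C1 W L c m n n' E1 Em Ep G : ℝ} (hC1 : 1 ≤ C1) (hW : 1 ≤ W) (hL : 1 ≤ L)
    (hc : 0 ≤ c) (hn : 0 ≤ n) (hnn : n ≤ n') (hEm : 0 ≤ Em) (hE1 : 0 ≤ E1)
    (hG : 64 * C1 * L ^ 2 * W ^ 6 ≤ G) (hm0 : 0 ≤ m) (hm : m ≤ L * W * c)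
    (hmE : Ep ≤ m) (hEpq : G ≤ Ep * E1) (hEmG : Em * G ≤ E1)
    (h : c ^ 2 * E1 ≤ 16 * (C1 * W ^ 4 * (c + n)) + 1 / 4 * (c ^ 2 * E1)) :
    Em * m ^ 2 ≤ n' := by
  have hC0 : 0 < C1 := by linarith
  have hW0 : 0 < W := by linarith
  have hL0 : 0 < L := by linarith
  -- the diagonal term
  have h1 : G ≤ L * W * (c * E1) := by
    calc G ≤ Ep * E1 := hEpq
      _ ≤ m * E1 := mul_le_mul_of_nonneg_right hmE hE1
      _ ≤ L * W * c * E1 := mul_le_mul_of_nonneg_right hm hE1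
      _ = _ := by ring
  have h2 : L * W * (64 * C1 * W ^ 4) ≤ L * W * (c * E1) := by
    refine le_trans ?_ (hG.trans h1)
    have e1 : 64 * C1 * L ^ 2 * W ^ 6 = L * W * (64 * C1 * W ^ 4) * (L * W) := by ring
    rw [e1]
    exact le_mul_of_one_le_right (by positivity) (by nlinarith)
  have h3 : 64 * C1 * W ^ 4 ≤ c * E1 := le_of_mul_le_mul_left h2 (by positivity)
  have h4 : 64 * C1 * W ^ 4 * c ≤ c * E1 * c := mul_le_mul_of_nonneg_right h3 hc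
  have h5 : c ^ 2 * E1 ≤ 32 * (C1 * W ^ 4 * n) := by
    have e1 : 64 * C1 * W ^ 4 * c = 64 * (C1 * W ^ 4 * c) := by ring
    have e2 : c * E1 * c = c ^ 2 * E1 := by ring
    have e3 : C1 * W ^ 4 * (c + n) = C1 * W ^ 4 * c + C1 * W ^ 4 * n := by ring
    rw [e1, e2] at h4
    rw [e3] at h
    linarith
  have h6 : Em * (64 * C1 * L ^ 2 * W ^ 6) * c ^ 2 ≤ 32 * (C1 * W ^ 4 * n) := by
    calc Em * (64 * C1 * L ^ 2 * W ^ 6) * c ^ 2 ≤ Em * G * c ^ 2 :=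
          mul_le_mul_of_nonneg_right (mul_le_mul_of_nonneg_left hG hEm) (sq_nonneg _)
      _ ≤ E1 * c ^ 2 := mul_le_mul_of_nonneg_right hEmG (sq_nonneg _)
      _ = c ^ 2 * E1 := by ring
      _ ≤ _ := h5
  have h7 : 32 * C1 * W ^ 4 * (2 * (Em * (L * W * c) ^ 2)) ≤ 32 * C1 * W ^ 4 * n := by
    have e1 : 32 * C1 * W ^ 4 * (2 * (Em * (L * W * c) ^ 2)) =
        Em * (64 * C1 * L ^ 2 * W ^ 6) * c ^ 2 := by ring
    have e2 : 32 * C1 * W ^ 4 * n = 32 * (C1 * W ^ 4 * n) := by ring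
    rw [e1, e2]
    exact h6
  have h8 : 2 * (Em * (L * W * c) ^ 2) ≤ n := le_of_mul_le_mul_left h7 (by positivity)
  have h9 : m ^ 2 ≤ (L * W * c) ^ 2 := pow_le_pow_left₀ hm0 hm 2
  have h10 : Em * m ^ 2 ≤ Em * (L * W * c) ^ 2 := mul_le_mul_of_nonneg_left h9 hEm
  have h11 : 0 ≤ Em * (L * W * c) ^ 2 := by positivity
  linarith

/-- the numerical end of `winT` for one `k` -/
private theorem endW {C1 W c s E1 E2 : ℝ} (hC1 : 1 ≤ C1) (hW : 1 ≤ W) (hc : 0 ≤ c) (hs : 0 ≤ s)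
    (hEq : 0 ≤ E2) (hE : E2 * E1 = 1)
    (h : c ^ 2 * E1 ≤ 16 * (C1 * W ^ 4 * (c * s)) + 1 / 4 * (c ^ 2 * E1)) :
    c ≤ 32 * (C1 * W ^ 4) * (E2 * s) := by
  rcases hc.eq_or_lt with rfl | hc0
  · positivity
  have h1 : c ^ 2 * E1 ≤ 32 * (C1 * W ^ 4 * (c * s)) := by
    have : 0 ≤ C1 * W ^ 4 * (c * s) := by positivity
    linarith
  have h2 : c * (c * E1) ≤ c * (32 * (C1 * W ^ 4) * s) := by
    have e1 : c * (c * E1) = c ^ 2 * E1 := by ring
    have e2 : c * (32 * (C1 * W ^ 4) * s) = 32 * (C1 * W ^ 4 * (c * s)) := by ring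
    rw [e1, e2]
    exact h1
  have h3 : c * E1 ≤ 32 * (C1 * W ^ 4) * s := le_of_mul_le_mul_left h2 hc0
  calc c = E2 * (c * E1) := by
        have : E2 * (c * E1) = c * (E2 * E1) := by ring
        rw [this, hE, mul_one]
    _ ≤ E2 * (32 * (C1 * W ^ 4) * s) := mul_le_mul_of_nonneg_left h3 hEq
    _ = _ := by ring

private theorem nearPairs_mono (q r : ℝ) {X Y : Finset ℝ} (h : X ⊆ Y) :
    nearPairs q r X ≤ nearPairs q r Y := by
  unfold nearPairs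
  apply Set.ncard_le_ncard
  · rintro p ⟨h1, h2, h3⟩
    exact ⟨h h1, h h2, h3⟩
  · apply ((Y ×ˢ Y).finite_toSet).subset
    rintro p ⟨h1, h2, _⟩
    simp only [Finset.coe_product, Set.mem_prod, Finset.mem_coe]
    exact ⟨h1, h2⟩

/-- the values of `k` -/
private theorem count {L y N W : ℝ} (hL : 1 ≤ L) (hy : 0 < y) (hy1 : y ≤ 1 / 4)
    (hW : 4 ≤ W) (hN : 0 ≤ Real.log N) (hNW : Real.log N ≤ W) :
    ((⌊L * y * Real.log N⌋₊ + 1 : ℕ) : ℝ) ≤ L * W := by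
  push_cast
  have h1 : (⌊L * y * Real.log N⌋₊ : ℝ) ≤ L * y * Real.log N := Nat.floor_le (by positivity)
  have h2 : y * Real.log N ≤ 1 / 4 * W := mul_le_mul hy1 hNW hN (by norm_num)
  have h3 : L * (y * Real.log N) ≤ L * (1 / 4 * W) := mul_le_mul_of_nonneg_left h2 (by linarith)
  have h4 : 1 * 4 ≤ L * W := mul_le_mul hL hW (by norm_num) (by linarith)
  have e1 : L * y * Real.log N = L * (y * Real.log N) := by ring
  have e2 : L * (1 / 4 * W) = 1 / 4 * (L * W) := by ring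
  rw [e2] at h3
  linarith

theorem badT {ε θ L : ℝ} (hε : 0 < ε) (hε1 : ε ≤ 1 / 4) (hθ : θ = ε / 56) (hL : L = 4 / θ ^ 2) :
    ∃ C : ℝ, 1 ≤ C ∧ ∀ (y N T : ℝ) (X : Finset ℝ), 0 < y → y ≤ 1 / 4 - ε → 1 ≤ N → C ≤ T →
      Real.log (T + N) ^ C ≤ N ^ y →
      (∀ x ∈ X, ∀ z ∈ X, |x - z| ≤ T) → (∀ x ∈ X, ∀ z ∈ X, x ≠ z → 1 ≤ |x - z|) →
      (∀ x ∈ X, ∃ k : ℕ, (1 - 5 * θ) * (L * y * Real.log N) ≤ k ∧
        (k : ℝ) ≤ L * y * Real.log N ∧
        N ^ (-((1 + θ) * y)) ≤ (L * y) ^ (k + 1) * ‖Dk (L * y) k x‖) →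
      N ^ ((2 + ε / 2) * y) ≤ X.card →
      N ^ (-((2 + ε / 2) * y)) * X.card ^ 2 ≤ nearPairs ((2 + ε) * y) (3 * (L + 1) * y) X := by
  have hθ0 : 0 < θ := by rw [hθ]; positivity
  have hθ1 : θ ≤ 1 := by rw [hθ]; linarith
  have hL1 : 1 ≤ L := by
    rw [hL, le_div_iff₀ (by positivity)]
    nlinarith
  obtain ⟨C1, hC1, hpair⟩ := pairP hL1 hε hε1
  obtain ⟨B, hB⟩ : ∃ B : ℝ, B = 64 * C1 * L ^ 2 := ⟨_, rfl⟩
  have hB0 : 0 ≤ B := by rw [hB]; positivity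
  have he4 : 1 ≤ Real.exp (B + 4) := Real.one_le_exp (by linarith)
  have h28 : 0 < 28 / ε := by positivity
  refine ⟨Real.exp (B + 4) + 28 / ε, by linarith, ?_⟩
  intro y N T X hy hy1 hN hT hW hXT hXs hk hcard
  have hε28 : 0 < 28 / ε := by positivity
  obtain ⟨hW4, hN2, hNW, hLyW, hlN⟩ := basic (L := L) hy (by linarith) hL1 hB0
    (by linarith) (by linarith) hN hT hW
  have hC28 : ((6 : ℕ) : ℝ) + 1 ≤ (Real.exp (B + 4) + 28 / ε) * (ε / 4) := by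
    have h1 : 28 / ε * (ε / 4) = 7 := by field_simp; norm_num
    have h2 : 0 ≤ Real.exp (B + 4) * (ε / 4) := by positivity
    rw [add_mul, h1]
    push_cast
    linarith
  obtain ⟨W, hW'⟩ : ∃ W : ℝ, W = Real.log (T + N) := ⟨_, rfl⟩
  rw [← hW'] at hW4 hNW hLyW hW
  have hN0 : 0 < N := by linarith
  have hW1 : 1 ≤ W := by linarith
  have hG : 64 * C1 * L ^ 2 * W ^ 6 ≤ N ^ (ε / 4 * y) := by
    rw [← hB]
    exact Pool.Agent.H76.SV.absorb 6 hW1 (by linarith) hC28 (by positivity) hN0 hW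
  obtain ⟨x1, x2, x3, x4⟩ := exps hN hy hε
  choose! κ hκ using hk
  have hmaps : ∀ x ∈ X, κ x ∈ Finset.range (⌊L * y * Real.log N⌋₊ + 1) := by
    intro x hx
    rw [Finset.mem_range, Nat.lt_succ_iff]
    exact Nat.le_floor (hκ x hx).2.1
  have hM := count hL1 hy (by linarith) (by linarith : 4 ≤ W) hlN hNW
  obtain ⟨M, hM'⟩ : ∃ M : ℕ, M = ⌊L * y * Real.log N⌋₊ + 1 := ⟨_, rfl⟩
  rw [← hM'] at hmaps hM
  have hMpos : (0 : ℝ) < M := by rw [hM']; positivity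
  obtain ⟨k, hkM, hkcard⟩ := Finset.exists_le_card_fiber_of_nsmul_le_card_of_maps_to
    (b := (X.card : ℝ) / M) hmaps ⟨0, by rw [Finset.mem_range]; omega⟩ (by
      rw [Finset.card_range, nsmul_eq_mul, mul_div_cancel₀ _ hMpos.ne'])
  obtain ⟨Y, hY⟩ : ∃ Y : Finset ℝ, Y = X.filter (fun x => κ x = k) := ⟨_, rfl⟩
  rw [← hY] at hkcard
  have hYX : Y ⊆ X := by rw [hY]; exact Finset.filter_subset _ _
  have hXpos : (0 : ℝ) < X.card := lt_of_lt_of_le (Real.rpow_pos_of_pos hN0 _) hcard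
  have hYpos : (0 : ℝ) < Y.card := lt_of_lt_of_le (by positivity) hkcard
  have hYne : Y.Nonempty := by
    rw [← Finset.card_pos]
    exact_mod_cast hYpos
  obtain ⟨x0, hx0⟩ := hYne
  have hYk : ∀ x ∈ Y, κ x = k := by
    intro x hx
    rw [hY, Finset.mem_filter] at hx
    exact hx.2
  have hk0 := hκ x0 (hYX hx0)
  rw [hYk x0 hx0] at hk0
  have hp := hpair y (N ^ (-((1 + θ) * y))) W T k Y hy hy1 (Real.rpow_nonneg hN0.le _) hW1
    (by
      rw [hW']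
      exact Real.log_le_log (by linarith) (by linarith)) hLyW
    (hk0.2.1.trans (mul_le_mul_of_nonneg_left hNW (by positivity)))
    (fun x hx z hz => hXT x (hYX hx) z (hYX hz)) (fun x hx z hz => hXs x (hYX hx) z (hYX hz))
    (fun x hx => by
      have := (hκ x (hYX hx)).2.2
      rwa [hYk x hx] at this)
  have hd := decay1 hε hε1 hθ hL hy hN hk0.1
  have ht := third (c := (Y.card : ℝ)) hC1 hW1 (by positivity) hd hG hL1 x1
  have hfour := one_add_four (C1 := C1) (z := (Y.card : ℝ) +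
    (nearPairs ((2 + ε) * y) (3 * (L + 1) * y) Y : ℝ)) (by linarith) hW1 (by positivity)
  have hmain : (Y.card : ℝ) ^ 2 * N ^ (-((2 + ε / 28) * y)) ≤
      16 * (C1 * W ^ 4 * ((Y.card : ℝ) + (nearPairs ((2 + ε) * y) (3 * (L + 1) * y) Y : ℝ))) +
        1 / 4 * ((Y.card : ℝ) ^ 2 * N ^ (-((2 + ε / 28) * y))) := by
    rw [mul_pow, vsq hN0 hθ] at hp
    linarith
  refine endB hC1 hW1 hL1 hYpos.le (by positivity)
    (by exact_mod_cast nearPairs_mono _ _ hYX) (Real.rpow_nonneg hN0.le _)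
    (Real.rpow_nonneg hN0.le _) hG hXpos.le ?_ hcard ?_ x3 hmain
  · rw [div_le_iff₀ hMpos] at hkcard
    calc (X.card : ℝ) ≤ Y.card * M := hkcard
      _ ≤ Y.card * (L * W) := mul_le_mul_of_nonneg_left hM hYpos.le
      _ = _ := by ring
  · have h1 := mul_le_mul_of_nonneg_right x2 (Real.rpow_nonneg hN0.le (-((2 + ε / 28) * y)))
    rwa [mul_assoc, x4, mul_one] at h1

theorem winT {ε θ L : ℝ} (hε : 0 < ε) (hε1 : ε ≤ 1 / 4) (hθ : θ = ε / 56) (hL : L = 4 / θ ^ 2) :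
    ∃ C : ℝ, 1 ≤ C ∧ ∀ (y N T H : ℝ) (X : Finset ℝ), 0 < y → y ≤ 1 / 4 - ε → 1 ≤ N → C ≤ T →
      Real.log (T + N) ^ C ≤ N ^ y → 0 ≤ H → H ≤ T →
      (∀ x ∈ X, ∀ z ∈ X, |x - z| ≤ H) → (∀ x ∈ X, ∀ z ∈ X, x ≠ z → 1 ≤ |x - z|) →
      (∀ x ∈ X, ∃ k : ℕ, (1 - 5 * θ) * (L * y * Real.log N) ≤ k ∧
        (k : ℝ) ≤ L * y * Real.log N ∧
        N ^ (-((1 + θ) * y)) ≤ (L * y) ^ (k + 1) * ‖Dk (L * y) k x‖) →
      (X.card : ℝ) ≤ N ^ ((2 + ε / 2) * y) *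
        (1 + lowSum ε N (1 - (2 + ε) * y) (H + 3 * (L + 1) * y)) := by
  have hθ0 : 0 < θ := by rw [hθ]; positivity
  have hθ1 : θ ≤ 1 := by rw [hθ]; linarith
  have hL1 : 1 ≤ L := by
    rw [hL, le_div_iff₀ (by positivity)]
    nlinarith
  obtain ⟨C1, hC1, hpair⟩ := pairW hL1 hε hε1
  obtain ⟨B, hB⟩ : ∃ B : ℝ, B = 64 * C1 * L ^ 2 := ⟨_, rfl⟩
  have hB0 : 0 ≤ B := by rw [hB]; positivity
  have he4 : 1 ≤ Real.exp (B + 4) := Real.one_le_exp (by linarith)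
  have h28 : 0 < 28 / ε := by positivity
  refine ⟨Real.exp (B + 4) + 28 / ε, by linarith, ?_⟩
  intro y N T H X hy hy1 hN hT hW hH0 hHT hXT hXs hk
  have hε28 : 0 < 28 / ε := by positivity
  obtain ⟨hW4, hN2, hNW, hLyW, hlN⟩ := basic (L := L) hy (by linarith) hL1 hB0
    (by linarith) (by linarith) hN hT hW
  have hC28 : ((6 : ℕ) : ℝ) + 1 ≤ (Real.exp (B + 4) + 28 / ε) * (ε / 4) := by
    have h1 : 28 / ε * (ε / 4) = 7 := by field_simp; norm_num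
    have h2 : 0 ≤ Real.exp (B + 4) * (ε / 4) := by positivity
    rw [add_mul, h1]
    push_cast
    linarith
  obtain ⟨W, hW'⟩ : ∃ W : ℝ, W = Real.log (T + N) := ⟨_, rfl⟩
  rw [← hW'] at hW4 hNW hLyW hW
  have hN0 : 0 < N := by linarith
  have hW1 : 1 ≤ W := by linarith
  have hG : 64 * C1 * L ^ 2 * W ^ 6 ≤ N ^ (ε / 4 * y) := by
    rw [← hB]
    exact Pool.Agent.H76.SV.absorb 6 hW1 (by linarith) hC28 (by positivity) hN0 hW
  obtain ⟨x1, x2, x3, x4⟩ := exps hN hy hε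
  choose! κ hκ using hk
  have hmaps : ∀ x ∈ X, κ x ∈ Finset.range (⌊L * y * Real.log N⌋₊ + 1) := by
    intro x hx
    rw [Finset.mem_range, Nat.lt_succ_iff]
    exact Nat.le_floor (hκ x hx).2.1
  have hM := count hL1 hy (by linarith) (by linarith : 4 ≤ W) hlN hNW
  obtain ⟨M, hM'⟩ : ∃ M : ℕ, M = ⌊L * y * Real.log N⌋₊ + 1 := ⟨_, rfl⟩
  rw [← hM'] at hmaps hM
  -- the low zeros
  have hβ : 0 ≤ 1 - (2 + ε) * y := by nlinarith
  obtain ⟨S, hS⟩ : ∃ S : ℝ, S = lowSum ε N (1 - (2 + ε) * y) (H + 3 * (L + 1) * y) := ⟨_, rfl⟩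
  rw [← hS]
  have hS0 : 0 ≤ S := by rw [hS]; exact lowSum_nonneg hN0.le _
  have hk1 : ∀ k ∈ Finset.range M, ((X.filter fun x => κ x = k).card : ℝ) ≤
      32 * (C1 * W ^ 4) * (N ^ ((2 + ε / 28) * y) * (1 + S)) := by
    intro k _
    obtain ⟨Y, hY⟩ : ∃ Y : Finset ℝ, Y = X.filter (fun x => κ x = k) := ⟨_, rfl⟩
    rw [← hY]
    have hYX : Y ⊆ X := by rw [hY]; exact Finset.filter_subset _ _
    have hYk : ∀ x ∈ Y, κ x = k := by
      intro x hx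
      rw [hY, Finset.mem_filter] at hx
      exact hx.2
    rcases Y.eq_empty_or_nonempty with hYe | ⟨x0, hx0⟩
    · rw [hYe, Finset.card_empty, Nat.cast_zero]
      have : 0 ≤ N ^ ((2 + ε / 28) * y) := Real.rpow_nonneg hN0.le _
      positivity
    have hk0 := hκ x0 (hYX hx0)
    rw [hYk x0 hx0] at hk0
    have hp := hpair y (N ^ (-((1 + θ) * y))) W H k Y (low_finite hβ (H + 3 * (L + 1) * y)).toFinset
      hy hy1 (Real.rpow_nonneg hN0.le _) hW1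
      (by
        rw [hW']
        exact Real.log_le_log (by linarith) (by linarith)) hLyW
      (hk0.2.1.trans (mul_le_mul_of_nonneg_left hNW (by positivity)))
      (fun v => by rw [Set.Finite.mem_toFinset])
      (fun x hx z hz => hXT x (hYX hx) z (hYX hz)) (fun x hx z hz => hXs x (hYX hx) z (hYX hz))
      (fun x hx => by
        have := (hκ x (hYX hx)).2.2
        rwa [hYk x hx] at this)
    have hd := decay1 hε hε1 hθ hL hy hN hk0.1
    have ht := third (c := (Y.card : ℝ)) hC1 hW1 (by positivity) hd hG hL1 x1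
    have hsum : ∑ v ∈ (low_finite hβ (H + 3 * (L + 1) * y)).toFinset,
        (analyticOrderNatAt riemannZeta v : ℝ) * (1 / (1 + (1 - v.re) / (L * y))) ^ (k + 1) ≤ S := by
      rw [hS, lowSum_eq hβ]
      refine Finset.sum_le_sum fun v hv => ?_
      rw [Set.Finite.mem_toFinset] at hv
      obtain ⟨hv1, hv2, hv3⟩ := hv
      apply mul_le_mul_of_nonneg_left _ (Nat.cast_nonneg _)
      have hv4 : v.re < 1 := by
        by_contra hge
        exact riemannZeta_ne_zero_of_one_le_re (not_lt.1 hge) hv1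
      exact decay2 hε hε1 hθ hL hy hN hk0.1 (by linarith) (by linarith)
    have hsum' : 1 + ∑ v ∈ (low_finite hβ (H + 3 * (L + 1) * y)).toFinset,
        (analyticOrderNatAt riemannZeta v : ℝ) * (1 / (1 + (1 - v.re) / (L * y))) ^ (k + 1) ≤
        1 + S := by linarith
    have hfour := one_add_four (C1 := C1) (z := (Y.card : ℝ) * (1 + S)) (by linarith) hW1
      (by positivity)
    have hm : C1 * (1 + W) ^ 4 * Y.card * (1 + ∑ v ∈ (low_finite hβ (H + 3 * (L + 1) * y)).toFinset,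
        (analyticOrderNatAt riemannZeta v : ℝ) * (1 / (1 + (1 - v.re) / (L * y))) ^ (k + 1)) ≤
        C1 * (1 + W) ^ 4 * Y.card * (1 + S) :=
      mul_le_mul_of_nonneg_left hsum' (by positivity)
    have hm2 : C1 * (1 + W) ^ 4 * Y.card * (1 + S) = C1 * (1 + W) ^ 4 * (Y.card * (1 + S)) := by
      ring
    rw [hm2] at hm
    have hmain : (Y.card : ℝ) ^ 2 * N ^ (-((2 + ε / 28) * y)) ≤
        16 * (C1 * W ^ 4 * ((Y.card : ℝ) * (1 + S))) +
          1 / 4 * ((Y.card : ℝ) ^ 2 * N ^ (-((2 + ε / 28) * y))) := by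
      rw [mul_pow, vsq hN0 hθ] at hp
      linarith
    exact endW hC1 hW1 (Nat.cast_nonneg _) (by linarith) (Real.rpow_nonneg hN0.le _) x4 hmain
  have hcount : (X.card : ℝ) = ∑ k ∈ Finset.range M, ((X.filter fun x => κ x = k).card : ℝ) := by
    rw [Finset.card_eq_sum_card_fiberwise hmaps]
    push_cast
    rfl
  have hEq : 0 ≤ N ^ ((2 + ε / 28) * y) := Real.rpow_nonneg hN0.le _
  rw [hcount]
  calc ∑ k ∈ Finset.range M, ((X.filter fun x => κ x = k).card : ℝ)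
      ≤ ∑ _k ∈ Finset.range M, 32 * (C1 * W ^ 4) * (N ^ ((2 + ε / 28) * y) * (1 + S)) :=
        Finset.sum_le_sum hk1
    _ = M * (32 * (C1 * W ^ 4) * (N ^ ((2 + ε / 28) * y) * (1 + S))) := by
        rw [Finset.sum_const, Finset.card_range, nsmul_eq_mul]
    _ ≤ L * W * (32 * (C1 * W ^ 4) * (N ^ ((2 + ε / 28) * y) * (1 + S))) :=
        mul_le_mul_of_nonneg_right hM (by positivity)
    _ = 32 * C1 * L * W ^ 5 * (N ^ ((2 + ε / 28) * y) * (1 + S)) := by ring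
    _ ≤ N ^ (ε / 4 * y) * (N ^ ((2 + ε / 28) * y) * (1 + S)) := by
        apply mul_le_mul_of_nonneg_right _ (by positivity)
        refine le_trans ?_ hG
        have e1 : 64 * C1 * L ^ 2 * W ^ 6 = 32 * C1 * L * W ^ 5 * (2 * (L * W)) := by ring
        rw [e1]
        exact le_mul_of_one_le_right (by positivity) (by nlinarith)
    _ = N ^ (ε / 4 * y) * N ^ ((2 + ε / 28) * y) * (1 + S) := by ring
    _ ≤ N ^ ((2 + ε / 2) * y) * (1 + S) := mul_le_mul_of_nonneg_right x2 (by linarith)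

end Pool.Agent.H76.TR
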