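import Mathlib
import Pool.Agent.H76.TR.LowZ
import Pool.Agent.H6.Win.ZetaLoc
import Pool.Agent.H76.SV.HlocV

/-!
# LowD: sums over distinct low zeros

`ord_le`: the multiplicity of a zero with `Re v ≥ 1/2 + δ` is at most `C log(|Im v| + 3)`
(`local_count`, `H6/Win/ZetaLoc.lean`, or `exists_HV` with `a = 1`, or `spreadU` with `S = {v}`,
`T = max 1 ..`; there are no zeros with `|Im v| ≤ 1`, or finitely many zeros in a compact set, for
which a maximum serves; `zord_eq`; use `ord (conj v) = ord v` or treat negative heights directly in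
`local_count`).  `lowSum_le`: term by term.  `lowSumD_le`: `N ≥ 1`, `Re v < 1`, `ε ≤ 1`.
About 120 lines.
-/

set_option autoImplicit false

open Complex

namespace Pool.Agent.H76.TR

open Pool.Agent.H76.CR

/-- the sum over the distinct zeros with `Re v ≥ β`, `|Im v| ≤ H` of `N^(-(1-ε)(1 - Re v))` -/
noncomputable def lowSumD (ε N β H : ℝ) : ℝ :=
  ∑ᶠ v ∈ low β H, N ^ (-((1 - ε) * (1 - v.re)))

theorem ord_le {δ : ℝ} (hδ : 0 < δ) : ∃ C : ℝ, 1 ≤ C ∧ ∀ v : ℂ, riemannZeta v = 0 →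
    1 / 2 + δ ≤ v.re → (analyticOrderNatAt riemannZeta v : ℝ) ≤ C * Real.log (|v.im| + 3) := by
  obtain ⟨η, hη0, hηδ, hη4⟩ : ∃ η : ℝ, 0 < η ∧ η ≤ δ ∧ η ≤ 1 / 4 :=
    ⟨min δ (1 / 4), lt_min hδ (by norm_num), min_le_left _ _, min_le_right _ _⟩
  have h1 : 1 / 2 < 1 / 2 + η / 3 := by linarith
  have h12 : 1 / 2 + η / 3 < 1 / 2 + 2 * η / 3 := by linarith
  have h2 : 1 / 2 + 2 * η / 3 < 2 := by linarith
  obtain ⟨C, hC0, hC⟩ := Pool.Agent.H6.local_count h1 h12 h2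
  refine ⟨max C 1, le_max_right _ _, fun v hv hre => ?_⟩
  have hvlt : v.re < 1 := re_lt_one hv
  have hv1 : v ≠ 1 := by
    rintro rfl
    simp at hvlt
  have h := hC v.im {v} (by
    intro u hu
    rw [Finset.mem_singleton] at hu
    subst hu
    refine ⟨by linarith, ?_, (zetaPole_eq_zero_iff hv1).2 hv⟩
    rw [sub_self, abs_zero]
    linarith)
  rw [Finset.sum_singleton, zord_eq hv1] at h
  refine h.trans ?_
  have h3 : (0 : ℝ) ≤ |v.im| := abs_nonneg _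
  have hl0 : 0 ≤ Real.log (|v.im| + 2) := Real.log_nonneg (by linarith)
  have hl : Real.log (|v.im| + 2) ≤ Real.log (|v.im| + 3) :=
    Real.log_le_log (by linarith) (by linarith)
  exact mul_le_mul (le_max_left _ _) hl hl0 (le_trans hC0.le (le_max_left _ _))

private theorem lowSumD_eq {β : ℝ} (hβ : 0 ≤ β) (ε N H : ℝ) :
    lowSumD ε N β H = ∑ v ∈ (low_finite hβ H).toFinset, N ^ (-((1 - ε) * (1 - v.re))) :=
  finsum_mem_eq_finite_toFinset_sum _ (low_finite hβ H)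

theorem lowSum_le {δ : ℝ} (hδ : 0 < δ) : ∃ C : ℝ, 1 ≤ C ∧ ∀ ε N β H : ℝ, 0 ≤ N →
    1 / 2 + δ ≤ β → 0 ≤ H → lowSum ε N β H ≤ C * Real.log (H + 3) * lowSumD ε N β H := by
  obtain ⟨C, hC1, hC⟩ := ord_le hδ
  refine ⟨C, hC1, fun ε N β H hN hβ hH => ?_⟩
  have hβ0 : 0 ≤ β := by linarith
  rw [lowSum_eq hβ0, lowSumD_eq hβ0, Finset.mul_sum]
  refine Finset.sum_le_sum fun v hv => ?_
  rw [Set.Finite.mem_toFinset] at hv
  obtain ⟨hv0, hvre, hvim⟩ := hv
  refine mul_le_mul_of_nonneg_right ?_ (Real.rpow_nonneg hN _)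
  refine (hC v hv0 (hβ.trans hvre)).trans ?_
  refine mul_le_mul_of_nonneg_left ?_ (by linarith)
  have h3 : (0 : ℝ) ≤ |v.im| := abs_nonneg _
  exact Real.log_le_log (by linarith) (by linarith)

theorem lowSumD_nonneg {ε N β : ℝ} (hN : 0 ≤ N) (H : ℝ) : 0 ≤ lowSumD ε N β H := by
  unfold lowSumD
  refine finsum_nonneg fun v => ?_
  refine finsum_nonneg fun _ => ?_
  exact Real.rpow_nonneg hN _

theorem lowSumD_mono {β β' ε ε' N H H' : ℝ} (hβ : 0 ≤ β) (hββ : β ≤ β') (hN : 1 ≤ N)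
    (hε : ε' ≤ ε) (hH : H ≤ H') : lowSumD ε' N β' H ≤ lowSumD ε N β H' := by
  have hN0 : (0 : ℝ) ≤ N := by linarith
  rw [lowSumD_eq (hβ.trans hββ), lowSumD_eq hβ]
  refine (Finset.sum_le_sum (g := fun v : ℂ => N ^ (-((1 - ε) * (1 - v.re))))
    fun v hv => ?_).trans (Finset.sum_le_sum_of_subset_of_nonneg ?_ fun v _ _ => ?_)
  · rw [Set.Finite.mem_toFinset] at hv
    have hlt := re_lt_one hv.1
    refine Real.rpow_le_rpow_of_exponent_le hN ?_
    nlinarith [mul_nonneg (sub_nonneg.2 hε) (sub_nonneg.2 hlt.le)]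
  · intro v hv
    rw [Set.Finite.mem_toFinset] at hv ⊢
    exact ⟨hv.1, hββ.trans hv.2.1, hv.2.2.trans hH⟩
  · exact Real.rpow_nonneg hN0 _

theorem lowSumD_le {β ε N H : ℝ} (hβ : 0 ≤ β) (hN : 1 ≤ N) (hε : ε ≤ 1) :
    lowSumD ε N β H ≤ (low β H).ncard := by
  rw [lowSumD_eq hβ, Set.ncard_eq_toFinset_card _ (low_finite hβ H)]
  have h : ∀ v ∈ (low_finite hβ H).toFinset, N ^ (-((1 - ε) * (1 - v.re))) ≤ (1 : ℝ) := by
    intro v hv
    rw [Set.Finite.mem_toFinset] at hv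
    have hlt := re_lt_one hv.1
    refine Real.rpow_le_one_of_one_le_of_nonpos hN ?_
    have := mul_nonneg (sub_nonneg.2 hε) (sub_nonneg.2 hlt.le)
    linarith
  refine (Finset.sum_le_sum h).trans ?_
  simp

end Pool.Agent.H76.TR
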