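import Mathlib
import Pool.Agent.H52.Unc.SpreadU
import Pool.Agent.H76.TR.SeenT

/-!
# RareT: from a bound for separated ordinates to the zeros with multiplicity

Copy of `rareV` (`H76/SV/RareV.lean`, 40 lines) with `seenT` in place of `seenV`.
-/

set_option autoImplicit false

open Complex

namespace Pool.Agent.H76.TR

open Pool.Agent.H76.CR Pool.Agent.H52.Unc

theorem rareT {θ η L ε : ℝ} (hθ : 0 < θ) (hθ1 : θ ≤ 1 / 8) (hη : 0 < η) (hη1 : η ≤ 1)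
    (hL : 4 ≤ L * θ ^ 2) (hε : 0 < ε) :
    ∃ c C : ℝ, 0 < c ∧ 1 ≤ C ∧ ∀ (σ N T H Λ P : ℝ) (S : Finset ℂ), 1 / 2 + ε ≤ σ → σ < 1 →
      (1 + η) ^ 2 * (L * (1 - σ) + 1 - σ) ≤ L * (1 - σ) + 1 / 2 → C ≤ T → 1 ≤ N → 0 ≤ H →
      1 ≤ Λ → Real.log (T + H + N) ≤ Λ → C * Real.log Λ + C ≤ (1 - σ) * Real.log N → 0 ≤ P →
      (∀ X : Finset ℝ, (∀ x ∈ X, T ≤ x ∧ x ≤ T + H) →
        (∀ x ∈ X, ∀ y ∈ X, x ≠ y → 1 ≤ |x - y|) →
        (∀ x ∈ X, ∃ k : ℕ, (1 - 5 * θ) * (L * (1 - σ) * Real.log N) ≤ k ∧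
          (k : ℝ) ≤ L * (1 - σ) * Real.log N ∧
          N ^ (-((1 + θ) * (1 - σ))) ≤
            (L * (1 - σ)) ^ (k + 1) * ‖Dk (L * (1 - σ)) k x‖) → (X.card : ℝ) ≤ P) →
      (∀ ρ ∈ S, riemannZeta ρ = 0 ∧ σ ≤ ρ.re ∧ T ≤ ρ.im ∧ ρ.im ≤ T + H ∧
        (rz (3 * (L * (1 - σ) + 1 - σ)) (ρ.re - η * (L * (1 - σ) + 1 - σ)) ρ : ℝ) <
          c * (1 - σ) * Real.log N) →
      ∑ ρ ∈ S, (analyticOrderNatAt riemannZeta ρ : ℝ) ≤ C * P * Real.log (T + H + 3) := by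
  obtain ⟨c, C0, hc, hC0, hseen⟩ := seenT hθ hθ1 hη hη1 hL
  obtain ⟨C1, hC1, hspread⟩ := spreadU (σ := 1 / 2 + ε) (by linarith)
  refine ⟨c, max C0 C1, hc, hC0.trans (le_max_left _ _), ?_⟩
  intro σ N T H Λ P S hσ hσ1 hη3 hT hN hH hΛ1 hΛ hbig hP hX hS
  have hC0T : C0 ≤ T := (le_max_left _ _).trans hT
  have hT1 : 1 ≤ T := hC0.trans hC0T
  have hCd : C0 * Real.log Λ + C0 ≤ (1 - σ) * Real.log N := by
    have h1 : 0 ≤ Real.log Λ := Real.log_nonneg hΛ1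
    have h2 : C0 * Real.log Λ ≤ max C0 C1 * Real.log Λ :=
      mul_le_mul_of_nonneg_right (le_max_left _ _) h1
    have h3 : C0 ≤ max C0 C1 := le_max_left _ _
    linarith
  have h := hspread T H P S hT1 hH hP
    (fun ρ hρ => by
      obtain ⟨a1, a2, a3, a4, _⟩ := hS ρ hρ
      exact ⟨a1, hσ.trans a2, a3, a4⟩)
    (fun X hX1 hX2 => hX X
      (fun x hx => by
        obtain ⟨ρ, hρ, rfl⟩ := hX1 x hx
        obtain ⟨_, _, a3, a4, _⟩ := hS ρ hρ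
        exact ⟨a3, a4⟩) hX2
      (fun x hx => by
        obtain ⟨ρ, hρ, rfl⟩ := hX1 x hx
        obtain ⟨a1, a2, a3, a4, a5⟩ := hS ρ hρ
        have habs : |ρ.im| = ρ.im := abs_of_nonneg (by linarith)
        obtain ⟨k, hk0, hk, hk2⟩ := hseen σ N Λ ρ hσ1 hη3 a1 a2 (by rw [habs]; linarith) hN
          (by
            rw [habs]
            exact le_trans (Real.log_le_log (by linarith) (by linarith)) hΛ) hCd a5
        refine ⟨k, hk0, hk, le_trans ?_ hk2⟩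
        apply Real.rpow_le_rpow_of_exponent_le hN
        linarith))
  refine h.trans ?_
  have h4 : 0 ≤ Real.log (T + H + 3) := Real.log_nonneg (by linarith)
  have h5 : C1 * P ≤ max C0 C1 * P := mul_le_mul_of_nonneg_right (le_max_right _ _) hP
  exact mul_le_mul_of_nonneg_right h5 h4

end Pool.Agent.H76.TR
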