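import Mathlib
import Pool.Agent.H76.SV.LargeV
import Pool.Agent.H76.TR.BadT
import Pool.Agent.H76.TR.RareT

/-!
# Main: the transfer principle for uncrowded zeros
-/

set_option autoImplicit false

open Complex

namespace Pool.Agent.H76.TR

open Pool.Agent.H76.CR Pool.Agent.H52.Unc Pool.Agent.H76.SV

/-- the zeros of `S` are uncrowded at the scale `N`, or `ζ` is small around them -/
def Calm (K c C ε σ N T T' : ℝ) (S : Finset ℂ) : Prop :=
  (∀ ρ ∈ S, (rz (K * (1 - σ)) (ρ.re - ε * (1 - σ)) ρ : ℝ) < c * (1 - σ) * Real.log N) ∨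
    (∀ s : ℂ, σ - 2 * ε * (1 - σ) ≤ s.re → T - C ≤ s.im → s.im ≤ T' + C →
      ‖riemannZeta s‖ ≤ N ^ (c * (1 - σ)))

/-- the radii -/
private theorem eta_ok {ε L y η : ℝ} (hε : 0 < ε) (hL : 0 < L) (hη : η = 2 * ε / (3 * (L + 1)))
    (hη1 : η ≤ 1) (hy : 0 < y) (hy2 : y ≤ 1 / 2 - ε) :
    (1 + η) ^ 2 * ((L + 1) * y) ≤ L * y + 1 / 2 := by
  have hL1 : 0 < L + 1 := by linarith
  have hη0 : 0 < η := by rw [hη]; positivity
  have h1 : η * (L + 1) = 2 * ε / 3 := by rw [hη]; field_simp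
  have h2 : (1 + η) ^ 2 ≤ 1 + 3 * η := by nlinarith
  calc (1 + η) ^ 2 * ((L + 1) * y) ≤ (1 + 3 * η) * ((L + 1) * y) := by
        have : 0 ≤ (L + 1) * y := by positivity
        exact mul_le_mul_of_nonneg_right h2 this
    _ = L * y + y + 3 * (η * (L + 1)) * y := by ring
    _ = L * y + y * (1 + 2 * ε) := by rw [h1]; ring
    _ ≤ L * y + 1 / 2 := by nlinarith

/-- consequences of the condition on `N` -/
private theorem facts {C W0 T N y : ℝ} (hW0 : 3 ≤ W0) (hC : Real.exp W0 ≤ C) (hT : C ≤ T)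
    (hN : 1 ≤ N) (h : Real.log (T + N) ^ C ≤ N ^ y) :
    W0 ≤ Real.log (T + N) ∧ C * Real.log (Real.log (T + N)) ≤ y * Real.log N ∧
      1 ≤ Real.log (Real.log (T + N)) ∧ Real.log N ≤ Real.log (T + N) := by
  have hC0 : 0 < C := (Real.exp_pos W0).trans_le hC
  have hTN : 0 < T + N := by linarith
  have h1 : W0 ≤ Real.log (T + N) := by
    rw [Real.le_log_iff_exp_le hTN]
    linarith
  have hW : 0 < Real.log (T + N) := by linarith
  have h2 : 1 ≤ Real.log (Real.log (T + N)) := by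
    rw [Real.le_log_iff_exp_le hW]
    have := Real.exp_one_lt_d9
    linarith
  refine ⟨h1, ?_, h2, Real.log_le_log (by linarith) (by linarith)⟩
  have h3 := Real.log_le_log (Real.rpow_pos_of_pos hW C) h
  rwa [Real.log_rpow hW, Real.log_rpow (by linarith)] at h3

private theorem two_prod {C0 l lΛ : ℝ} (hC0 : 1 ≤ C0) (hl : 1 ≤ l) (h : lΛ ≤ 2 * l) :
    C0 * lΛ + C0 ≤ 3 * C0 * l := by
  have h1 : C0 * lΛ ≤ C0 * (2 * l) := mul_le_mul_of_nonneg_left h (by linarith)
  have h2 : C0 * 1 ≤ C0 * l := mul_le_mul_of_nonneg_left hl (by linarith)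
  linarith

private theorem sq_ok {T H N : ℝ} (hT : 3 ≤ T) (hH : 0 ≤ H) (hN : 1 ≤ N) :
    T + H + 3 ≤ (T + H + N) ^ 2 := by
  have h1 : 4 ≤ T + H + N := by linarith
  have h2 : 4 * (T + H + N) ≤ (T + H + N) ^ 2 := by
    rw [sq]
    exact mul_le_mul_of_nonneg_right h1 (by linarith)
  linarith

private theorem rpow_down {C C' W N y : ℝ} (hW : 1 ≤ W) (hCC : C' ≤ C) (h : W ^ C ≤ N ^ y) :
    W ^ C' ≤ N ^ y :=
  (Real.rpow_le_rpow_of_exponent_le hW hCC).trans h

theorem main (ε : ℝ) (hε : 0 < ε) (hε1 : ε ≤ 1 / 4) :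
    ∃ K c C : ℝ, 0 < K ∧ 0 < c ∧ 1 ≤ C ∧ ∀ σ N T H : ℝ, 3 / 4 + ε ≤ σ → σ < 1 → 1 ≤ N →
      C ≤ T → 0 ≤ H → Real.log (T + H + N) ^ C ≤ N ^ (1 - σ) →
      ∀ S : Finset ℂ, (∀ ρ ∈ S, riemannZeta ρ = 0 ∧ σ ≤ ρ.re ∧ T ≤ ρ.im ∧ ρ.im ≤ T + H) →
      Calm K c C ε σ N T (T + H) S →
      ∑ ρ ∈ S, (analyticOrderNatAt riemannZeta ρ : ℝ) ≤
        N ^ ((2 + ε) * (1 - σ)) * (1 + lowSum ε N (1 - (2 + ε) * (1 - σ)) (H + K)) ∧
      ((∀ ρ ∈ S, ∀ ρ' ∈ S, ρ ≠ ρ' → 1 ≤ |ρ.im - ρ'.im|) → N ^ ((2 + ε) * (1 - σ)) ≤ S.card →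
        N ^ (-((2 + ε) * (1 - σ))) * S.card ^ 2 ≤
          {p : ℂ × ℂ | p.1 ∈ S ∧ p.2 ∈ S ∧
            Near ((2 + ε) * (1 - σ)) (K * (1 - σ)) (p.1.im - p.2.im)}.ncard) := by
  obtain ⟨θ, hθdef⟩ : ∃ θ : ℝ, θ = ε / 56 := ⟨_, rfl⟩
  have hθ : 0 < θ := by rw [hθdef]; positivity
  have hθ1 : θ ≤ 1 / 8 := by rw [hθdef]; linarith
  obtain ⟨L, hLdef⟩ : ∃ L : ℝ, L = 4 / θ ^ 2 := ⟨_, rfl⟩
  have hL0 : 0 < L := by rw [hLdef]; positivity
  have hL : 4 ≤ L * θ ^ 2 := by
    rw [hLdef, div_mul_cancel₀ _ (by positivity : θ ^ 2 ≠ 0)]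
  obtain ⟨η, hηdef⟩ : ∃ η : ℝ, η = 2 * ε / (3 * (L + 1)) := ⟨_, rfl⟩
  have hη0 : 0 < η := by rw [hηdef]; positivity
  have hη1 : η ≤ 1 := by
    rw [hηdef, div_le_one (by positivity)]
    linarith
  have hηL : η * (L + 1) ≤ ε := by
    have h1 : η * (L + 1) = 2 * ε / 3 := by rw [hηdef]; field_simp
    rw [h1]; linarith
  obtain ⟨c0, C0, hc0, hC0, hrare⟩ := rareT (ε := ε) hθ hθ1 hη0 hη1 hL hε
  obtain ⟨c5, C5, hc5, hC5, hseen⟩ := seenT hθ hθ1 hη0 hη1 hL
  obtain ⟨C1, hC1, hbad⟩ := badT hε hε1 hθdef hLdef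
  obtain ⟨C2, hC2, hwin⟩ := winT hε hε1 hθdef hLdef
  set cA : ℝ := min c0 c5 with hcA
  have hcA0 : 0 < cA := lt_min hc0 hc5
  obtain ⟨c', C4, hc', hC4, hlarge⟩ := largeV (K := 3 * (L + 1)) (ε := ε) (c := cA)
    (by positivity) hε (by linarith) hcA0
  set W0 : ℝ := 3 * C0 + 3 with hW0def
  have hW0 : 3 ≤ W0 := by rw [hW0def]; linarith
  have hexp : 0 < Real.exp W0 := Real.exp_pos _
  have h8 : 0 < 8 / ε := by positivity
  set C : ℝ := Real.exp W0 + 3 * C0 + 3 * C5 + C1 + C2 + C4 + 8 / ε + 3 * (L + 1) with hCdef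
  have hCW : Real.exp W0 ≤ C := by rw [hCdef]; linarith
  have hCC0 : 3 * C0 ≤ C := by rw [hCdef]; linarith
  have hCC5 : 3 * C5 ≤ C := by rw [hCdef]; linarith
  have hCC1 : C1 ≤ C := by rw [hCdef]; linarith
  have hCC2 : C2 ≤ C := by rw [hCdef]; linarith
  have hCC4 : C4 ≤ C := by rw [hCdef]; linarith
  have hC8 : 8 / ε ≤ C := by rw [hCdef]; linarith
  have hCL : 3 * (L + 1) ≤ C := by rw [hCdef]; linarith
  refine ⟨3 * (L + 1), min cA c', C, by positivity, lt_min hcA0 hc', by linarith, ?_⟩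
  intro σ N T H hσ hσ1 hN hT hH hTN S hS hcalm
  obtain ⟨y, hy⟩ : ∃ y : ℝ, y = 1 - σ := ⟨_, rfl⟩
  have hσy : σ = 1 - y := by linarith
  subst hσy
  have h1y : 1 - (1 - y) = y := by ring
  rw [h1y] at hTN ⊢
  have hy0 : 0 < y := by linarith
  have hy4 : y ≤ 1 / 4 - ε := by linarith
  have hN0 : 0 < N := by linarith
  obtain ⟨f1, f2, f3, f4⟩ := facts hW0 hCW (by linarith : C ≤ T + H) hN hTN
  obtain ⟨W, hW⟩ : ∃ W : ℝ, W = Real.log (T + H + N) := ⟨_, rfl⟩
  rw [← hW] at f1 f2 f3 f4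
  have hW3 : 3 ≤ W := hW0.trans f1
  have hWpos : 0 < W := by linarith
  have hT3 : 3 ≤ T := by linarith
  have hyN : C ≤ y * Real.log N := by
    have : C * 1 ≤ C * Real.log W := mul_le_mul_of_nonneg_left f3 (by linarith)
    linarith
  have hlN0 : 0 < Real.log N := by
    by_contra hcon
    rw [not_lt] at hcon
    have := mul_nonpos_of_nonneg_of_nonpos hy0.le hcon
    linarith
  have hLy : L * y + 1 - (1 - y) = (L + 1) * y := by ring
  have hrad : (1 + η) ^ 2 * (L * y + 1 - (1 - y)) ≤ L * y + 1 / 2 := by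
    rw [hLy]; exact eta_ok hε hL0 hηdef hη1 hy0 (by linarith)
  -- the zeros of `S` are uncrowded in both cases
  have hunc : ∀ ρ ∈ S, (rz (3 * (L * y + 1 - (1 - y))) (ρ.re - η * (L * y + 1 - (1 - y))) ρ : ℝ) <
      cA * y * Real.log N := by
    intro ρ hρ
    obtain ⟨a1, a2, a3, a4⟩ := hS ρ hρ
    have habs : T ≤ |ρ.im| := a3.trans (le_abs_self _)
    have hρim : 3 * (L + 1) * y < |ρ.im| := by
      have h1 : 3 * (L + 1) * y < 3 * (L + 1) * 1 := by
        apply mul_lt_mul_of_pos_left _ (by linarith)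
        linarith
      linarith
    have hmono := rz_mono (r := 3 * (L * y + 1 - (1 - y))) (r' := 3 * (L + 1) * y)
      (β := ρ.re - η * (L * y + 1 - (1 - y))) (β' := ρ.re - ε * y) hρim
      (by rw [hLy]; linarith)
      (by
        rw [hLy]
        have : η * ((L + 1) * y) ≤ ε * y := by
          rw [← mul_assoc]
          exact mul_le_mul_of_nonneg_right hηL hy0.le
        linarith)
    have hmono' : (rz (3 * (L * y + 1 - (1 - y))) (ρ.re - η * (L * y + 1 - (1 - y))) ρ : ℝ) ≤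
        rz (3 * (L + 1) * y) (ρ.re - ε * y) ρ := by exact_mod_cast hmono
    refine hmono'.trans_lt ?_
    rcases hcalm with hc | hc
    · have h0 := hc ρ hρ
      rw [h1y] at h0
      refine lt_of_lt_of_le h0 ?_
      have h1 : min cA c' * y ≤ cA * y := mul_le_mul_of_nonneg_right (min_le_left _ _) hy0.le
      exact mul_le_mul_of_nonneg_right h1 hlN0.le
    · by_contra hcon
      rw [not_lt] at hcon
      obtain ⟨s, hs1, hs2, hs3⟩ := hlarge ρ y N a1 hy0 (by linarith) (by linarith)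
        (by linarith) hN (by linarith)
        (by
          have h1 : Real.log (Real.log N) ≤ Real.log W := Real.log_le_log hlN0 f4
          have h2 : C4 * Real.log (Real.log N) ≤ C4 * Real.log W :=
            mul_le_mul_of_nonneg_left h1 (by linarith)
          have h3 : C4 * Real.log W ≤ C * Real.log W :=
            mul_le_mul_of_nonneg_right hCC4 (by linarith)
          linarith) hcon
      have him := (Complex.abs_im_le_norm (s - ρ)).trans hs2
      rw [Complex.sub_im, abs_le] at him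
      have h5 := hc s (by rw [h1y]; linarith) (by linarith [him.1]) (by linarith [him.2])
      rw [h1y] at h5
      have h6 : N ^ (min cA c' * y) ≤ N ^ (c' * y) := by
        apply Real.rpow_le_rpow_of_exponent_le hN
        exact mul_le_mul_of_nonneg_right (min_le_right _ _) hy0.le
      linarith
  have hq1 : N ^ ((2 + ε / 2) * y) ≤ N ^ ((2 + ε) * y) :=
    Real.rpow_le_rpow_of_exponent_le hN (mul_le_mul_of_nonneg_right (by linarith) hy0.le)
  have hβ : 0 ≤ 1 - (2 + ε) * y := by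
    have : (2 + ε) * y ≤ 3 * (1 / 4) := mul_le_mul (by linarith) (by linarith) hy0.le (by norm_num)
    linarith
  constructor
  · -- windows
    have hls0 : 0 ≤ lowSum ε N (1 - (2 + ε) * y) (H + 3 * (L + 1) * y) :=
      lowSum_nonneg hN0.le _
    have hlsm : lowSum ε N (1 - (2 + ε) * y) (H + 3 * (L + 1) * y) ≤
        lowSum ε N (1 - (2 + ε) * y) (H + 3 * (L + 1)) := by
      apply lowSum_mono hβ hN0.le
      have : 3 * (L + 1) * y ≤ 3 * (L + 1) * 1 :=
        mul_le_mul_of_nonneg_left (by linarith) (by positivity)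
      linarith
    have hl2 : Real.log (T + H + N) ≤ 2 * W := by rw [← hW]; linarith
    have hl3 : Real.log (T + H + 3) ≤ 2 * W := by
      have h1 : T + H + 3 ≤ (T + H + N) ^ 2 := sq_ok hT3 hH hN
      calc Real.log (T + H + 3) ≤ Real.log ((T + H + N) ^ 2) := Real.log_le_log (by linarith) h1
        _ = 2 * W := by rw [Real.log_pow, hW]; norm_num
    have hmain := hrare (1 - y) N T H (2 * W)
      (N ^ ((2 + ε / 2) * y) * (1 + lowSum ε N (1 - (2 + ε) * y) (H + 3 * (L + 1) * y))) S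
      (by linarith) (by linarith) (by rw [h1y]; exact hrad) (by linarith) hN hH (by linarith) hl2
      (by
        rw [h1y]
        have h1 : Real.log (2 * W) ≤ 2 * Real.log W := by
          rw [Real.log_mul (by norm_num) (by linarith)]
          have := Real.log_le_log (by norm_num : (0 : ℝ) < 2) (by linarith : (2 : ℝ) ≤ W)
          linarith
        have h2 : C0 * Real.log (2 * W) + C0 ≤ 3 * C0 * Real.log W := two_prod hC0 f3 h1
        have h3 : 3 * C0 * Real.log W ≤ C * Real.log W := by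
          have : 0 ≤ Real.log W := by linarith
          exact mul_le_mul_of_nonneg_right hCC0 this
        linarith)
      (mul_nonneg (Real.rpow_nonneg hN0.le _) (by linarith))
      (by
        intro X hX1 hX2 hX3
        rw [h1y] at hX3
        refine hwin y N (T + H) H X hy0 hy4 hN (by linarith) (rpow_down (by linarith) hCC2 hTN) hH
          (by linarith) ?_ hX2 hX3
        intro x hx z hz
        have b1 := hX1 x hx
        have b2 := hX1 z hz
        rw [abs_le]
        constructor <;> linarith [b1.1, b1.2, b2.1, b2.2])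
      (by
        intro ρ hρ
        obtain ⟨a1, a2, a3, a4⟩ := hS ρ hρ
        refine ⟨a1, a2, a3, a4, ?_⟩
        rw [h1y]
        refine (hunc ρ hρ).trans_le ?_
        have h1 : cA * y ≤ c0 * y := mul_le_mul_of_nonneg_right (min_le_left _ _) hy0.le
        exact mul_le_mul_of_nonneg_right h1 hlN0.le)
    refine hmain.trans ?_
    have hab : 2 * C0 * W ^ 1 ≤ N ^ (ε / 2 * y) := by
      refine absorb (C := C) (W := W) 1 (by linarith) (by linarith) ?_ (by positivity) hN0
        (by rw [hW]; exact hTN)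
      rw [div_le_iff₀ hε] at hC8
      push_cast
      linarith
    have hB0 : 0 < N ^ ((2 + ε / 2) * y) := Real.rpow_pos_of_pos hN0 _
    calc C0 * (N ^ ((2 + ε / 2) * y) *
          (1 + lowSum ε N (1 - (2 + ε) * y) (H + 3 * (L + 1) * y))) * Real.log (T + H + 3)
        ≤ C0 * (N ^ ((2 + ε / 2) * y) *
          (1 + lowSum ε N (1 - (2 + ε) * y) (H + 3 * (L + 1)))) * (2 * W) := by
          have i1 : 0 ≤ Real.log (T + H + 3) := Real.log_nonneg (by linarith)
          have i2 : 0 ≤ 1 + lowSum ε N (1 - (2 + ε) * y) (H + 3 * (L + 1)) := by linarith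
          apply mul_le_mul _ hl3 i1
            (mul_nonneg (by linarith) (mul_nonneg hB0.le i2))
          apply mul_le_mul_of_nonneg_left _ (by linarith)
          apply mul_le_mul_of_nonneg_left _ hB0.le
          linarith
      _ = (2 * C0 * W ^ 1) * (N ^ ((2 + ε / 2) * y) *
          (1 + lowSum ε N (1 - (2 + ε) * y) (H + 3 * (L + 1)))) := by ring
      _ ≤ N ^ (ε / 2 * y) * (N ^ ((2 + ε / 2) * y) *
          (1 + lowSum ε N (1 - (2 + ε) * y) (H + 3 * (L + 1)))) := by
          apply mul_le_mul_of_nonneg_right hab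
          exact mul_nonneg hB0.le (by linarith)
      _ = N ^ ((2 + ε) * y) *
          (1 + lowSum ε N (1 - (2 + ε) * y) (H + 3 * (L + 1))) := by
          rw [← mul_assoc, ← Real.rpow_add hN0]
          congr 2
          ring
  · -- differences
    intro hsep hcard
    classical
    have hinj : Set.InjOn (fun ρ : ℂ => ρ.im) (S : Set ℂ) := by
      intro ρ hρ ρ' hρ' h
      by_contra hne
      have h1 := hsep ρ hρ ρ' hρ' hne
      have h2 : ρ.im - ρ'.im = 0 := sub_eq_zero.2 h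
      rw [h2, abs_zero] at h1
      linarith
    have hXcard : (S.image fun ρ : ℂ => ρ.im).card = S.card := Finset.card_image_of_injOn hinj
    have hres := hbad y N (T + H) (S.image fun ρ : ℂ => ρ.im) hy0 hy4 hN (by linarith)
      (rpow_down (by linarith) hCC1 hTN) ?_ ?_ ?_ ?_
    · rw [hXcard] at hres
      have h1 : N ^ (-((2 + ε) * y)) * (S.card : ℝ) ^ 2 ≤
          N ^ (-((2 + ε / 2) * y)) * (S.card : ℝ) ^ 2 := by
        apply mul_le_mul_of_nonneg_right _ (sq_nonneg _)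
        apply Real.rpow_le_rpow_of_exponent_le hN
        have : (2 + ε / 2) * y ≤ (2 + ε) * y := mul_le_mul_of_nonneg_right (by linarith) hy0.le
        linarith
      refine h1.trans (hres.trans ?_)
      have h2 : nearPairs ((2 + ε) * y) (3 * (L + 1) * y) (S.image fun ρ : ℂ => ρ.im) ≤
          {p : ℂ × ℂ | p.1 ∈ S ∧ p.2 ∈ S ∧
            Near ((2 + ε) * y) (3 * (L + 1) * y) (p.1.im - p.2.im)}.ncard := by
        unfold nearPairs
        have hfin : {p : ℂ × ℂ | p.1 ∈ S ∧ p.2 ∈ S ∧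
            Near ((2 + ε) * y) (3 * (L + 1) * y) (p.1.im - p.2.im)}.Finite := by
          refine (S ×ˢ S).finite_toSet.subset ?_
          rintro p ⟨h1, h2, _⟩
          rw [Finset.mem_coe, Finset.mem_product]
          exact ⟨h1, h2⟩
        refine le_trans (Set.ncard_le_ncard ?_ (hfin.image fun p : ℂ × ℂ => (p.1.im, p.2.im)))
          (Set.ncard_image_le hfin)
        rintro ⟨x, z⟩ ⟨h1, h2, h3⟩
        obtain ⟨ρ, hρ, hρx⟩ := Finset.mem_image.1 h1
        obtain ⟨ρ', hρ', hρz⟩ := Finset.mem_image.1 h2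
        refine ⟨(ρ, ρ'), ⟨hρ, hρ', ?_⟩, ?_⟩
        · simp only at hρx hρz h3 ⊢
          rw [hρx, hρz]
          exact h3
        · simp only at hρx hρz ⊢
          rw [hρx, hρz]
      exact_mod_cast h2
    · intro x hx z hz
      obtain ⟨ρ, hρ, rfl⟩ := Finset.mem_image.1 hx
      obtain ⟨ρ', hρ', rfl⟩ := Finset.mem_image.1 hz
      obtain ⟨-, -, a3, a4⟩ := hS ρ hρ
      obtain ⟨-, -, b3, b4⟩ := hS ρ' hρ'
      rw [abs_le]
      constructor <;> linarith
    · intro x hx z hz hne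
      obtain ⟨ρ, hρ, rfl⟩ := Finset.mem_image.1 hx
      obtain ⟨ρ', hρ', rfl⟩ := Finset.mem_image.1 hz
      exact hsep ρ hρ ρ' hρ' (fun h => hne (by rw [h]))
    · intro x hx
      obtain ⟨ρ, hρ, rfl⟩ := Finset.mem_image.1 hx
      obtain ⟨a1, a2, a3, a4⟩ := hS ρ hρ
      have habs : |ρ.im| = ρ.im := abs_of_nonneg (by linarith)
      have hΛ : Real.log (|ρ.im| + N) ≤ 2 * W := by
        rw [habs]
        have h1 : Real.log (ρ.im + N) ≤ W := by
          rw [hW]
          exact Real.log_le_log (by linarith) (by linarith)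
        linarith
      obtain ⟨k, hk1, hk2, hk3⟩ := hseen (1 - y) N (2 * W) ρ (by linarith)
        (by rw [h1y]; exact hrad) a1 a2 (by rw [habs]; linarith) hN hΛ
        (by
          rw [h1y]
          have h1 : Real.log (2 * W) ≤ 2 * Real.log W := by
            rw [Real.log_mul (by norm_num) (by linarith)]
            have := Real.log_le_log (by norm_num : (0 : ℝ) < 2) (by linarith : (2 : ℝ) ≤ W)
            linarith
          have h2 : C5 * Real.log (2 * W) + C5 ≤ 3 * C5 * Real.log W := two_prod hC5 f3 h1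
          have h3 : 3 * C5 * Real.log W ≤ C * Real.log W := by
            have : 0 ≤ Real.log W := by linarith
            exact mul_le_mul_of_nonneg_right hCC5 this
          linarith)
        (by
          rw [h1y]
          refine (hunc ρ hρ).trans_le ?_
          have h1 : cA * y ≤ c5 * y := mul_le_mul_of_nonneg_right (min_le_right _ _) hy0.le
          exact mul_le_mul_of_nonneg_right h1 hlN0.le)
      rw [h1y] at hk1 hk2 hk3
      refine ⟨k, hk1, hk2, le_trans ?_ hk3⟩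
      apply Real.rpow_le_rpow_of_exponent_le hN
      have : 1 - ρ.re ≤ y := by linarith
      linarith
    · rw [hXcard]
      exact hq1.trans hcard

end Pool.Agent.H76.TR
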