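import Mathlib
import Pool.Agent.H76.SV.Num
import Pool.Agent.H76.TR.Main
import Pool.Agent.H76.TR.LowD

/-!
# Main2: the transfer principle with distinct low zeros

Apply `main` with `ε/2` in place of `ε`, `y = 1 - σ`: `Calm` for `ε` implies `Calm` for `ε/2` (fewer
zeros `u` are counted: `rz_mono` in `H52/Unc/RzF.lean`, needs `K y < |im ρ|`, so enlarge `C`; smaller
region for `s`); `σ ≥ 3/4 + ε ≥ 3/4 + ε/2`.  Windows: the `lowSum` of `main` (parameters `ε/2`,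
`1 - (2+ε/2) y`, `H + K`) is at most `C' log(H+K+3) lowSumD (ε/2) N (1-(2+ε/2)y) (H+K)` (`lowSum_le`,
`δ = ε/2`: `1 - (2+ε/2) y ≥ 1/2 + ε/2` for `y ≤ 1/4 - ε`), and this `lowSumD` is at most
`lowSumD ε N (1-(2+ε)y) (H+K)` (`lowSumD_mono`).  `C' log(H+K+3) ≤ 2 C' W`, `W = log(T+H+N)`
(`K + 3 ≤ C ≤ T`), is absorbed by `N^((ε/2)y)` (`absorb`).  Differences: `Near` is monotone,
`Set.ncard_le_ncard`.  About 150 lines.
-/

set_option autoImplicit false

open Complex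

namespace Pool.Agent.H76.TR

open Pool.Agent.H76.CR Pool.Agent.H52.Unc Pool.Agent.H76.SV

theorem main2 (ε : ℝ) (hε : 0 < ε) (hε1 : ε ≤ 1 / 4) :
    ∃ K c C : ℝ, 0 < K ∧ 0 < c ∧ 1 ≤ C ∧ ∀ σ N T H : ℝ, 3 / 4 + ε ≤ σ → σ < 1 → 1 ≤ N →
      C ≤ T → 0 ≤ H → Real.log (T + H + N) ^ C ≤ N ^ (1 - σ) →
      ∀ S : Finset ℂ, (∀ ρ ∈ S, riemannZeta ρ = 0 ∧ σ ≤ ρ.re ∧ T ≤ ρ.im ∧ ρ.im ≤ T + H) →
      Calm K c C ε σ N T (T + H) S →
      ∑ ρ ∈ S, (analyticOrderNatAt riemannZeta ρ : ℝ) ≤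
        N ^ ((2 + ε) * (1 - σ)) * (1 + lowSumD ε N (1 - (2 + ε) * (1 - σ)) (H + K)) ∧
      ((∀ ρ ∈ S, ∀ ρ' ∈ S, ρ ≠ ρ' → 1 ≤ |ρ.im - ρ'.im|) → N ^ ((2 + ε) * (1 - σ)) ≤ S.card →
        N ^ (-((2 + ε) * (1 - σ))) * S.card ^ 2 ≤
          {p : ℂ × ℂ | p.1 ∈ S ∧ p.2 ∈ S ∧
            Near ((2 + ε) * (1 - σ)) (K * (1 - σ)) (p.1.im - p.2.im)}.ncard) := by
  obtain ⟨K, c, C0, hK, hc, hC0, hmain⟩ := main (ε / 2) (by linarith) (by linarith)
  obtain ⟨C1, hC1, hlow⟩ := lowSum_le (δ := ε / 2) (by linarith)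
  have h8 : 0 < 8 / ε := by positivity
  have hE : 0 < Real.exp (2 * C1 + 1) := Real.exp_pos _
  obtain ⟨C, hCdef⟩ : ∃ C : ℝ, C = C0 + K + 4 + 8 / ε + Real.exp (2 * C1 + 1) := ⟨_, rfl⟩
  refine ⟨K, c, C, hK, hc, by rw [hCdef]; linarith, ?_⟩
  intro σ N T H hσ hσ1 hN hT hH hTN S hS hcalm
  obtain ⟨y, hy⟩ : ∃ y : ℝ, y = 1 - σ := ⟨_, rfl⟩
  have hσy : σ = 1 - y := by linarith
  subst hσy
  have h1y : 1 - (1 - y) = y := by ring
  rw [h1y] at hTN ⊢
  have hy0 : 0 < y := by linarith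
  have hy4 : y ≤ 1 / 4 - ε := by linarith
  have hN0 : 0 < N := by linarith
  have hCC0 : C0 ≤ C := by rw [hCdef]; linarith
  have hCK : K + 4 ≤ C := by rw [hCdef]; linarith
  have hC8 : 8 / ε ≤ C := by rw [hCdef]; linarith
  have hCE : Real.exp (2 * C1 + 1) ≤ C := by rw [hCdef]; linarith
  obtain ⟨W, hW⟩ : ∃ W : ℝ, W = Real.log (T + H + N) := ⟨_, rfl⟩
  have hWC : 2 * C1 + 1 ≤ W := by
    rw [hW, Real.le_log_iff_exp_le (by linarith)]
    linarith
  have hW1 : 1 ≤ W := by linarith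
  have hTN' : W ^ C0 ≤ N ^ y := by
    refine le_trans ?_ (hW ▸ hTN)
    exact Real.rpow_le_rpow_of_exponent_le hW1 hCC0
  -- calmness
  have hcalm' : Calm K c C0 (ε / 2) (1 - y) N T (T + H) S := by
    rcases hcalm with h | h
    · left
      intro ρ hρ
      obtain ⟨a1, a2, a3, a4⟩ := hS ρ hρ
      have h0 := h ρ hρ
      rw [h1y] at h0 ⊢
      refine lt_of_le_of_lt ?_ h0
      have hKy : K * y < |ρ.im| := by
        have h1 : K * y ≤ K * 1 := mul_le_mul_of_nonneg_left (by linarith) hK.le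
        have h2 : T ≤ |ρ.im| := a3.trans (le_abs_self _)
        linarith
      have := rz_mono (r := K * y) (r' := K * y) (β := ρ.re - ε / 2 * y) (β' := ρ.re - ε * y)
        hKy le_rfl (by
          have : 0 < ε * y := by positivity
          linarith)
      exact_mod_cast this
    · right
      intro s h1 h2 h3
      refine h s ?_ (by linarith) (by linarith)
      rw [h1y] at h1 ⊢
      have : 0 < ε * y := by positivity
      linarith
  obtain ⟨r1, r2⟩ := hmain (1 - y) N T H (by linarith) hσ1 hN (by linarith) hH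
    (by rw [h1y, ← hW]; exact hTN') S hS hcalm'
  rw [h1y] at r1 r2
  have hq1 : (2 + ε / 2) * y ≤ (2 + ε) * y := mul_le_mul_of_nonneg_right (by linarith) hy0.le
  have hβ0 : 1 / 2 + ε / 2 ≤ 1 - (2 + ε) * y := by
    have h1 : (2 + ε) * y ≤ (2 + ε) * (1 / 4 - ε) := mul_le_mul_of_nonneg_left hy4 (by linarith)
    have h2 : (2 + ε) * (1 / 4 - ε) = 1 / 2 - 7 / 4 * ε - ε ^ 2 := by ring
    have h3 : 0 ≤ ε ^ 2 := sq_nonneg ε
    linarith
  constructor
  · have hl1 := hlow (ε / 2) N (1 - (2 + ε / 2) * y) (H + K) hN0.le (by linarith) (by linarith)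
    have hl2 : lowSumD (ε / 2) N (1 - (2 + ε / 2) * y) (H + K) ≤
        lowSumD ε N (1 - (2 + ε) * y) (H + K) :=
      lowSumD_mono (by linarith) (by linarith) hN (by linarith) le_rfl
    have hD0 : 0 ≤ lowSumD ε N (1 - (2 + ε) * y) (H + K) := lowSumD_nonneg hN0.le _
    have hlog : Real.log (H + K + 3) ≤ W := by
      rw [hW]
      exact Real.log_le_log (by linarith) (by linarith)
    have hlog0 : 0 ≤ Real.log (H + K + 3) := Real.log_nonneg (by linarith)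
    have hl3 : lowSum (ε / 2) N (1 - (2 + ε / 2) * y) (H + K) ≤
        C1 * W * lowSumD ε N (1 - (2 + ε) * y) (H + K) := by
      refine hl1.trans ?_
      have hC10 : 0 ≤ C1 := by linarith
      calc C1 * Real.log (H + K + 3) * lowSumD (ε / 2) N (1 - (2 + ε / 2) * y) (H + K)
          ≤ C1 * Real.log (H + K + 3) * lowSumD ε N (1 - (2 + ε) * y) (H + K) :=
            mul_le_mul_of_nonneg_left hl2 (mul_nonneg hC10 hlog0)
        _ ≤ C1 * W * lowSumD ε N (1 - (2 + ε) * y) (H + K) :=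
            mul_le_mul_of_nonneg_right (mul_le_mul_of_nonneg_left hlog hC10) hD0
    have hab : 2 * C1 * W ^ 1 ≤ N ^ (ε / 2 * y) := by
      refine absorb (C := C) (W := W) 1 hW1 (by linarith) ?_ (by positivity) hN0
        (by rw [hW]; exact hTN)
      rw [div_le_iff₀ hε] at hC8
      push_cast
      linarith
    have h5 : 1 + lowSum (ε / 2) N (1 - (2 + ε / 2) * y) (H + K) ≤
        (2 * C1 * W ^ 1) * (1 + lowSumD ε N (1 - (2 + ε) * y) (H + K)) := by
      have h6 : 1 ≤ C1 * W := by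
        calc (1 : ℝ) = 1 * 1 := by ring
          _ ≤ C1 * W := mul_le_mul hC1 hW1 zero_le_one (by linarith)
      have h7 : 0 ≤ C1 * W * lowSumD ε N (1 - (2 + ε) * y) (H + K) :=
        mul_nonneg (by linarith) hD0
      calc 1 + lowSum (ε / 2) N (1 - (2 + ε / 2) * y) (H + K)
          ≤ C1 * W + C1 * W * lowSumD ε N (1 - (2 + ε) * y) (H + K) := by linarith
        _ ≤ 2 * (C1 * W) + 2 * (C1 * W * lowSumD ε N (1 - (2 + ε) * y) (H + K)) := by linarith
        _ = _ := by ring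
    have hB0 : 0 < N ^ ((2 + ε / 2) * y) := Real.rpow_pos_of_pos hN0 _
    calc ∑ ρ ∈ S, (analyticOrderNatAt riemannZeta ρ : ℝ)
        ≤ N ^ ((2 + ε / 2) * y) * (1 + lowSum (ε / 2) N (1 - (2 + ε / 2) * y) (H + K)) := r1
      _ ≤ N ^ ((2 + ε / 2) * y) * ((2 * C1 * W ^ 1) *
          (1 + lowSumD ε N (1 - (2 + ε) * y) (H + K))) := mul_le_mul_of_nonneg_left h5 hB0.le
      _ ≤ N ^ ((2 + ε / 2) * y) * (N ^ (ε / 2 * y) *
          (1 + lowSumD ε N (1 - (2 + ε) * y) (H + K))) := by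
          apply mul_le_mul_of_nonneg_left _ hB0.le
          exact mul_le_mul_of_nonneg_right hab (by linarith)
      _ = N ^ ((2 + ε) * y) * (1 + lowSumD ε N (1 - (2 + ε) * y) (H + K)) := by
          rw [← mul_assoc, ← Real.rpow_add hN0]
          congr 2
          ring
  · intro hsep hcard
    have h1 := r2 hsep ((Real.rpow_le_rpow_of_exponent_le hN hq1).trans hcard)
    have h2 : N ^ (-((2 + ε) * y)) * (S.card : ℝ) ^ 2 ≤
        N ^ (-((2 + ε / 2) * y)) * (S.card : ℝ) ^ 2 := by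
      apply mul_le_mul_of_nonneg_right _ (sq_nonneg _)
      exact Real.rpow_le_rpow_of_exponent_le hN (by linarith)
    refine h2.trans (h1.trans ?_)
    have hfin : {p : ℂ × ℂ | p.1 ∈ S ∧ p.2 ∈ S ∧
        Near ((2 + ε) * y) (K * y) (p.1.im - p.2.im)}.Finite := by
      refine (S ×ˢ S).finite_toSet.subset ?_
      rintro p ⟨h1, h2, _⟩
      rw [Finset.mem_coe, Finset.mem_product]
      exact ⟨h1, h2⟩
    have h3 := Set.ncard_le_ncard (s := {p : ℂ × ℂ | p.1 ∈ S ∧ p.2 ∈ S ∧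
        Near ((2 + ε / 2) * y) (K * y) (p.1.im - p.2.im)}) (by
      rintro p ⟨b1, b2, v, b3, b4, b5⟩
      exact ⟨b1, b2, v, b3, by linarith, b5⟩) hfin
    exact_mod_cast h3

end Pool.Agent.H76.TR
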