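import Mathlib
import Pool.Agent.H76.TR.Main2
import Pool.Agent.H48.UP.Classical

/-!
# SumT: the weighted form of the transfer principle

From `main2` (first conclusion, first alternative of `Calm`, and `lowSumD_le`).
`n(ρ) = rz (K(1-σ)) (ρ.re - ε(1-σ)) ρ`, `y = 1-σ`, `W0 = log (T+H)`, `Z` = the number of low zeros;
if `S` is nonempty the classical zero-free region (`H48/UP/Classical.lean`, at a `ρ ∈ S`) gives
`1/y ≤ C1 W0`.  For `n ∈ ℕ` put `N_n = exp(A (n + 1 + log W0)/y)`, `A ≥ 1/c` and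
`A ≥ 2C + C log(2 A C1)` (possible: `log A = o(A)`): then `n < c y log N_n`, and
`T+H+N ≤ (T+H) N`, `log(T+H+N_n) ≤ W0 + A(n+1+log W0)/y ≤ 2 A C1 W0 (n+1+log W0)`, so
`C log log(T+H+N_n) ≤ C (2(n+1+log W0) + log(2 A C1)) ≤ A(n+1+log W0) = y log N_n`.  `main2` for
`S_n = {ρ ∈ S : n(ρ) = n}`: `∑_(S_n) ord ≤ exp(3A(n+1+log W0)) (1+Z)`.  Sum over the values `n` of
`n(ρ)` (`Finset.sum_fiberwise`) with the weights `exp(-(3A+1) n)`:
`≤ W0^(3A) e^(3A) (∑ e^(-n)) (1+Z) ≤ W0^(C') (1+Z)` (`W0` is larger than any constant).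
About 150 lines.
-/

set_option autoImplicit false

open Complex

namespace Pool.Agent.H76.TR

open Pool.Agent.H76.CR Pool.Agent.H52.Unc Pool.Agent.H76.SV

private theorem choose_A {c C C1 : ℝ} (hc : 0 < c) (hC : 1 ≤ C) (hC1 : 0 < C1) :
    ∃ A : ℝ, 1 ≤ A ∧ 1 ≤ c * A ∧ 1 ≤ A * C1 ∧ 2 * C + C * Real.log (2 * A * C1) ≤ A := by
  have h2C : 0 ≤ Real.log (2 * C) := Real.log_nonneg (by linarith)
  set A : ℝ := 1 / c + 1 / C1 + 1 +
    2 * (2 * C + C * |Real.log (2 * C1)| + C * Real.log (2 * C)) with hA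
  have t1 : 0 < 1 / c := by positivity
  have t2 : 0 < 1 / C1 := by positivity
  have t3 : 0 ≤ C * |Real.log (2 * C1)| := by positivity
  have t4 : 0 ≤ C * Real.log (2 * C) := by positivity
  have hA1 : 1 ≤ A := by rw [hA]; linarith
  have hA0 : 0 < A := by linarith
  refine ⟨A, hA1, ?_, ?_, ?_⟩
  · have h1 : 1 / c ≤ A := by rw [hA]; linarith
    calc 1 = c * (1 / c) := by field_simp
      _ ≤ c * A := by gcongr
  · have h1 : 1 / C1 ≤ A := by rw [hA]; linarith
    calc 1 = 1 / C1 * C1 := by field_simp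
      _ ≤ A * C1 := by gcongr
  · have e1 : Real.log (2 * A * C1) = Real.log (2 * C1) + Real.log A := by
      rw [show 2 * A * C1 = 2 * C1 * A by ring, Real.log_mul (by positivity) hA0.ne']
    have e2 : Real.log A ≤ Real.log (2 * C) + A / (2 * C) := by
      have h1 : Real.log (A / (2 * C)) ≤ A / (2 * C) - 1 :=
        Real.log_le_sub_one_of_pos (by positivity)
      rw [Real.log_div hA0.ne' (by positivity)] at h1
      linarith
    have e3 : Real.log (2 * C1) ≤ |Real.log (2 * C1)| := le_abs_self _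
    have e4 : C * (Real.log (2 * C1) + Real.log A) ≤
        C * (|Real.log (2 * C1)| + (Real.log (2 * C) + A / (2 * C))) := by gcongr
    have e5 : C * (A / (2 * C)) = A / 2 := by field_simp
    have e6 : C * (|Real.log (2 * C1)| + (Real.log (2 * C) + A / (2 * C))) =
        C * |Real.log (2 * C1)| + C * Real.log (2 * C) + A / 2 := by
      rw [mul_add, mul_add, e5]
      ring
    have e7 : 2 * (2 * C + C * |Real.log (2 * C1)| + C * Real.log (2 * C)) ≤ A := by
      rw [hA]
      linarith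
    rw [e1]
    linarith

private theorem log_bound {A C C1 W y M X : ℝ} (hA : 1 ≤ A) (hC : 1 ≤ C) (hAC : 1 ≤ A * C1)
    (hAA : 2 * C + C * Real.log (2 * A * C1) ≤ A) (hW : 1 ≤ W) (hy : 0 < y) (hy1 : y ≤ 1)
    (hyW : 1 / y ≤ C1 * W) (hX : 1 ≤ X) (hXW : Real.log W ≤ X) (hM : 2 ≤ M)
    (hMW : Real.log M = W) :
    Real.log (M + Real.exp (A * X / y)) ^ C ≤ Real.exp (A * X / y) ^ y := by
  have hE1 : 1 ≤ A * X / y := by
    rw [le_div_iff₀ hy]
    nlinarith
  have hE2 : 2 ≤ Real.exp (A * X / y) := by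
    have := Real.add_one_le_exp (A * X / y)
    linarith
  have h1 : M + Real.exp (A * X / y) ≤ M * Real.exp (A * X / y) := by nlinarith
  have hL0 : 0 < Real.log (M + Real.exp (A * X / y)) := Real.log_pos (by linarith)
  have h2 : Real.log (M + Real.exp (A * X / y)) ≤ W + A * X / y := by
    calc Real.log (M + Real.exp (A * X / y)) ≤ Real.log (M * Real.exp (A * X / y)) :=
          Real.log_le_log (by positivity) h1
      _ = W + A * X / y := by
          rw [Real.log_mul (by positivity) (Real.exp_pos _).ne', Real.log_exp, hMW]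
  have h3 : A * X / y ≤ A * C1 * (W * X) := by
    calc A * X / y = A * X * (1 / y) := by ring
      _ ≤ A * X * (C1 * W) := by gcongr
      _ = A * C1 * (W * X) := by ring
  have h4 : W ≤ A * C1 * (W * X) := by
    calc W = 1 * (W * 1) := by ring
      _ ≤ A * C1 * (W * X) := by gcongr
  have h5 : Real.log (M + Real.exp (A * X / y)) ≤ 2 * A * C1 * (W * X) := by linarith
  have h6 : Real.log (Real.log (M + Real.exp (A * X / y))) ≤
      Real.log (2 * A * C1) + (Real.log W + Real.log X) := by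
    calc Real.log (Real.log (M + Real.exp (A * X / y))) ≤ Real.log (2 * A * C1 * (W * X)) :=
          Real.log_le_log hL0 h5
      _ = _ := by
          have z1 : 2 * A * C1 ≠ 0 := by nlinarith
          have z2 : W * X ≠ 0 := by positivity
          have z3 : W ≠ 0 := by positivity
          have z4 : X ≠ 0 := by positivity
          rw [Real.log_mul z1 z2, Real.log_mul z3 z4]
  have h7 : Real.log X ≤ X := by
    have := Real.log_le_sub_one_of_pos (show 0 < X by linarith)
    linarith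
  have h8 : 0 ≤ Real.log (2 * A * C1) := Real.log_nonneg (by linarith)
  have h9 : C * Real.log (Real.log (M + Real.exp (A * X / y))) ≤ A * X := by
    calc C * Real.log (Real.log (M + Real.exp (A * X / y)))
        ≤ C * (Real.log (2 * A * C1) * X + (X + X)) := by
          gcongr
          calc Real.log (Real.log (M + Real.exp (A * X / y)))
              ≤ Real.log (2 * A * C1) + (Real.log W + Real.log X) := h6
            _ ≤ Real.log (2 * A * C1) * X + (X + X) := by nlinarith
      _ = (2 * C + C * Real.log (2 * A * C1)) * X := by ring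
      _ ≤ A * X := by gcongr
  rw [Real.rpow_def_of_pos hL0, ← Real.exp_mul]
  apply Real.exp_le_exp.2
  have e : A * X / y * y = A * X := by field_simp
  rw [e]
  linarith

private theorem exp_sum (s : Finset ℕ) : ∑ n ∈ s, Real.exp (-(n : ℝ)) ≤ 2 := by
  have h1 : ∀ n : ℕ, Real.exp (-(n : ℝ)) ≤ (1 / 2 : ℝ) ^ n := by
    intro n
    have e : Real.exp (-(n : ℝ)) = Real.exp (-1) ^ n := by
      rw [← Real.exp_nat_mul]
      congr 1
      ring
    rw [e]
    apply pow_le_pow_left₀ (Real.exp_pos _).le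
    rw [Real.exp_neg, one_div]
    apply inv_anti₀ (by norm_num)
    have := Real.add_one_le_exp (1 : ℝ)
    linarith
  calc ∑ n ∈ s, Real.exp (-(n : ℝ)) ≤ ∑ n ∈ s, (1 / 2 : ℝ) ^ n :=
        Finset.sum_le_sum fun n _ => h1 n
    _ ≤ ∑' n : ℕ, (1 / 2 : ℝ) ^ n :=
        summable_geometric_two.sum_le_tsum s (fun n _ => by positivity)
    _ = 2 := tsum_geometric_two

theorem main_sum (ε : ℝ) (hε : 0 < ε) (hε1 : ε ≤ 1 / 4) :
    ∃ K C : ℝ, 0 < K ∧ 1 ≤ C ∧ ∀ σ T H : ℝ, 3 / 4 + ε ≤ σ → σ < 1 → C ≤ T → 0 ≤ H →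
      ∀ S : Finset ℂ, (∀ ρ ∈ S, riemannZeta ρ = 0 ∧ σ ≤ ρ.re ∧ T ≤ ρ.im ∧ ρ.im ≤ T + H) →
      ∑ ρ ∈ S, (analyticOrderNatAt riemannZeta ρ : ℝ) *
          Real.exp (-(C * rz (K * (1 - σ)) (ρ.re - ε * (1 - σ)) ρ)) ≤
        Real.log (T + H) ^ C * (1 + (low (1 - (2 + ε) * (1 - σ)) (H + K)).ncard) := by
  obtain ⟨K, c, C, hK, hc, hC, hmain⟩ := main2 ε hε hε1
  obtain ⟨c0, hc0, hcl⟩ := Pool.Agent.H48.UP.classical
  obtain ⟨A, hA1, hcA, hAC, hAA⟩ := choose_A hc hC (show 0 < 2 / c0 by positivity)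
  have hA0 : 0 < A := by linarith
  have hexp3 : 4 ≤ Real.exp 3 := by
    have := Real.add_one_le_exp (3 : ℝ)
    linarith
  refine ⟨K, C + 6 * A + 1 + Real.exp 3, hK, by linarith, ?_⟩
  intro σ T H hσ hσ1 hT hH S hS
  set Cf : ℝ := C + 6 * A + 1 + Real.exp 3 with hCf
  set y : ℝ := 1 - σ with hy
  set W : ℝ := Real.log (T + H) with hW
  set Z : ℕ := (low (1 - (2 + ε) * y) (H + K)).ncard with hZ
  have hy0 : 0 < y := by rw [hy]; linarith
  have hy4 : y ≤ 1 / 4 := by rw [hy]; linarith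
  have hTe : Real.exp 3 ≤ T + H := by linarith
  have hM2 : 2 ≤ T + H := by linarith
  have hW3 : 3 ≤ W := by
    rw [hW, Real.le_log_iff_exp_le (by linarith)]
    exact hTe
  have hW0 : 0 < W := by linarith
  have hlW : 0 ≤ Real.log W := Real.log_nonneg (by linarith)
  rcases S.eq_empty_or_nonempty with rfl | ⟨ρ0, hρ0⟩
  · rw [Finset.sum_empty]
    positivity
  -- the classical zero-free region
  have hyW : 1 / y ≤ 2 / c0 * W := by
    obtain ⟨z1, z2, z3, z4⟩ := hS ρ0 hρ0
    have h1 := hcl ρ0 z1 (by linarith)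
    have h2 : |ρ0.im| = ρ0.im := abs_of_nonneg (by linarith)
    rw [h2] at h1
    have h3 : Real.log (2 + ρ0.im) ≤ 2 * W := by
      calc Real.log (2 + ρ0.im) ≤ Real.log ((T + H) ^ 2) :=
            Real.log_le_log (by linarith) (by nlinarith)
        _ = 2 * W := by rw [Real.log_pow]; push_cast; ring
    have h4 : 0 < Real.log (2 + ρ0.im) := Real.log_pos (by linarith)
    have h5 : c0 / (2 * W) ≤ c0 / Real.log (2 + ρ0.im) := by gcongr
    have h6 : c0 / (2 * W) ≤ y := by rw [hy]; linarith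
    rw [div_le_iff₀ (by positivity)] at h6
    rw [div_le_iff₀ hy0, div_mul_eq_mul_div, div_mul_eq_mul_div, le_div_iff₀ hc0]
    linarith
  -- the zeros with given crowding
  have hkey : ∀ n : ℕ, ∑ ρ ∈ S.filter (fun ρ => rz (K * y) (ρ.re - ε * y) ρ = n),
      (analyticOrderNatAt riemannZeta ρ : ℝ) ≤
        Real.exp (3 * A * (n + 1 + Real.log W)) * (1 + Z) := by
    intro n
    set X : ℝ := n + 1 + Real.log W with hX
    have hX1 : 1 ≤ X := by
      have : (0 : ℝ) ≤ n := n.cast_nonneg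
      linarith
    have hXW : Real.log W ≤ X := by
      have : (0 : ℝ) ≤ n := n.cast_nonneg
      linarith
    set N : ℝ := Real.exp (A * X / y) with hN
    have hN1 : 1 ≤ N := Real.one_le_exp (by positivity)
    have hlN : Real.log N = A * X / y := Real.log_exp _
    have h1 := hmain σ N T H hσ hσ1 hN1 (by linarith) hH
      (log_bound hA1 hC hAC hAA (by linarith) hy0 (by linarith) hyW hX1 hXW hM2 rfl)
      (S.filter (fun ρ => rz (K * y) (ρ.re - ε * y) ρ = n))
      (fun ρ hρ => hS ρ (Finset.mem_filter.1 hρ).1)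
      (Or.inl (fun ρ hρ => by
        rw [(Finset.mem_filter.1 hρ).2, ← hy, hlN]
        have e : c * y * (A * X / y) = c * A * X := by field_simp
        rw [e]
        calc (n : ℝ) < X := by rw [hX]; linarith
          _ = 1 * X := by ring
          _ ≤ c * A * X := by gcongr))
    refine h1.1.trans ?_
    have h2 : lowSumD ε N (1 - (2 + ε) * y) (H + K) ≤ Z :=
      lowSumD_le (by nlinarith) hN1 (by linarith)
    have h3 : N ^ ((2 + ε) * y) ≤ Real.exp (3 * A * X) := by
      rw [hN, ← Real.exp_mul]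
      apply Real.exp_le_exp.2
      have e : A * X / y * ((2 + ε) * y) = (2 + ε) * (A * X) := by field_simp
      rw [e]
      have : 0 < A * X := by positivity
      nlinarith
    have h4 : 0 ≤ lowSumD ε N (1 - (2 + ε) * y) (H + K) := lowSumD_nonneg (by linarith) _
    exact mul_le_mul h3 (by linarith) (by linarith) (Real.exp_pos _).le
  -- the sum over the values of the crowding
  have hmaps : ∀ ρ ∈ S, rz (K * y) (ρ.re - ε * y) ρ ∈
      S.image (fun ρ => rz (K * y) (ρ.re - ε * y) ρ) := fun ρ hρ => Finset.mem_image_of_mem _ hρ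
  rw [← Finset.sum_fiberwise_of_maps_to hmaps]
  have hone : ∀ n ∈ S.image (fun ρ => rz (K * y) (ρ.re - ε * y) ρ),
      ∑ ρ ∈ S.filter (fun ρ => rz (K * y) (ρ.re - ε * y) ρ = n),
        (analyticOrderNatAt riemannZeta ρ : ℝ) *
          Real.exp (-(Cf * rz (K * y) (ρ.re - ε * y) ρ)) ≤
        Real.exp (-(n : ℝ)) * (Real.exp (3 * A) * W ^ (3 * A) * (1 + Z)) := by
    intro n _
    have hn0 : (0 : ℝ) ≤ n := n.cast_nonneg
    calc ∑ ρ ∈ S.filter (fun ρ => rz (K * y) (ρ.re - ε * y) ρ = n),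
        (analyticOrderNatAt riemannZeta ρ : ℝ) *
          Real.exp (-(Cf * rz (K * y) (ρ.re - ε * y) ρ))
        = ∑ ρ ∈ S.filter (fun ρ => rz (K * y) (ρ.re - ε * y) ρ = n),
          (analyticOrderNatAt riemannZeta ρ : ℝ) * Real.exp (-(Cf * n)) := by
          apply Finset.sum_congr rfl
          intro ρ hρ
          rw [(Finset.mem_filter.1 hρ).2]
      _ = (∑ ρ ∈ S.filter (fun ρ => rz (K * y) (ρ.re - ε * y) ρ = n),
          (analyticOrderNatAt riemannZeta ρ : ℝ)) * Real.exp (-(Cf * n)) := by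
          rw [Finset.sum_mul]
      _ ≤ Real.exp (3 * A * (n + 1 + Real.log W)) * (1 + Z) * Real.exp (-(Cf * n)) := by
          gcongr
          exact hkey n
      _ = Real.exp (3 * A * (n + 1 + Real.log W) + -(Cf * n)) * (1 + Z) := by
          rw [Real.exp_add]
          ring
      _ ≤ Real.exp (-(n : ℝ) + (3 * A + Real.log W * (3 * A))) * (1 + Z) := by
          refine mul_le_mul_of_nonneg_right (Real.exp_le_exp.2 ?_) (by positivity)
          rw [hCf]
          nlinarith [mul_nonneg hA0.le hn0, mul_nonneg (show 0 ≤ C by linarith) hn0,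
            mul_nonneg (Real.exp_pos 3).le hn0]
      _ = _ := by
          rw [Real.exp_add, Real.exp_add, Real.rpow_def_of_pos hW0]
          ring
  refine (Finset.sum_le_sum hone).trans ?_
  rw [← Finset.sum_mul]
  have hP : 0 ≤ Real.exp (3 * A) * W ^ (3 * A) * (1 + (Z : ℝ)) := by positivity
  calc (∑ n ∈ S.image (fun ρ => rz (K * y) (ρ.re - ε * y) ρ), Real.exp (-(n : ℝ))) *
        (Real.exp (3 * A) * W ^ (3 * A) * (1 + Z))
      ≤ 2 * (Real.exp (3 * A) * W ^ (3 * A) * (1 + Z)) :=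
        mul_le_mul_of_nonneg_right (exp_sum _) hP
    _ = 2 * Real.exp (3 * A) * W ^ (3 * A) * (1 + Z) := by ring
    _ ≤ W ^ (3 * A + 1) * W ^ (3 * A) * (1 + Z) := by
        gcongr
        have h1 : Real.exp 1 ≤ W := by
          have := Real.exp_one_lt_d9
          linarith
        have h2 : (2 : ℝ) ≤ Real.exp 1 := by
          have := Real.add_one_le_exp (1 : ℝ)
          linarith
        calc 2 * Real.exp (3 * A) ≤ Real.exp 1 * Real.exp (3 * A) := by gcongr
          _ = Real.exp 1 ^ (3 * A + 1) := by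
              rw [← Real.exp_mul, ← Real.exp_add]
              congr 1
              ring
          _ ≤ W ^ (3 * A + 1) := Real.rpow_le_rpow (Real.exp_pos _).le h1 (by positivity)
    _ = W ^ (6 * A + 1) * (1 + Z) := by
        rw [← Real.rpow_add hW0]
        congr 2
        ring
    _ ≤ W ^ Cf * (1 + Z) := by
        gcongr
        · linarith
        · rw [hCf]
          linarith

end Pool.Agent.H76.TR
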